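import Pool.Agent.TH716.C3.Stmts
import Pool.Agent.Helper281.Sc.Gc

set_option autoImplicit false

namespace Pool.Agent.TH142.C3

open Pool.Agent.TH716.C3 Pool.Agent.Helper281.Sc

/-- the walk of the gadget `h` -/
def P (g : ℕ → ℕ) (h : ℕ) (i : ℕ) : ℕ := wv (rl g h) i

theorem Pvals (g : ℕ → ℕ) (h : ℕ) : P g h 0 = 0 ∧ P g h 1 = 2 * g h + 2 ∧ P g h 2 = 2 * g h + 1 ∧
    P g h 3 = 0 ∧ P g h 4 = 2 * h + 1 ∧ P g h 5 = 2 * h + 2 ∧ P g h 6 = 0 ∧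
    P g h 7 = 2 * g h + 1 ∧ P g h 8 = 2 * g h + 2 ∧ P g h 9 = 0 ∧ P g h 10 = 2 * h + 2 ∧
    P g h 11 = 2 * h + 1 ∧ P g h 12 = 0 ∧ P g h 13 = 2 * h + 2 ∧ P g h 14 = 2 * h + 1 :=
  ⟨rfl, rfl, rfl, rfl, rfl, rfl, rfl, rfl, rfl, rfl, rfl, rfl, rfl, rfl, rfl⟩

theorem P_cases (g : ℕ → ℕ) (h i : ℕ) (hi : i ≤ 14) :
    ∃ x, (x = h ∨ x = g h) ∧
      ((P g h i = 0 ∧ P g h (nx 14 i) = 2 * x + 1) ∨ (P g h i = 2 * x + 1 ∧ P g h (nx 14 i) = 0) ∨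
      (P g h i = 0 ∧ P g h (nx 14 i) = 2 * x + 2) ∨ (P g h i = 2 * x + 2 ∧ P g h (nx 14 i) = 0) ∨
      (P g h i = 2 * x + 1 ∧ P g h (nx 14 i) = 2 * x + 2) ∨
      (P g h i = 2 * x + 2 ∧ P g h (nx 14 i) = 2 * x + 1)) := by
  interval_cases i
  · exact ⟨g h, Or.inr rfl, Or.inr (Or.inr (Or.inl ⟨rfl, rfl⟩))⟩
  · exact ⟨g h, Or.inr rfl, Or.inr (Or.inr (Or.inr (Or.inr (Or.inr ⟨rfl, rfl⟩))))⟩
  · exact ⟨g h, Or.inr rfl, Or.inr (Or.inl ⟨rfl, rfl⟩)⟩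
  · exact ⟨h, Or.inl rfl, Or.inl ⟨rfl, rfl⟩⟩
  · exact ⟨h, Or.inl rfl, Or.inr (Or.inr (Or.inr (Or.inr (Or.inl ⟨rfl, rfl⟩))))⟩
  · exact ⟨h, Or.inl rfl, Or.inr (Or.inr (Or.inr (Or.inl ⟨rfl, rfl⟩)))⟩
  · exact ⟨g h, Or.inr rfl, Or.inl ⟨rfl, rfl⟩⟩
  · exact ⟨g h, Or.inr rfl, Or.inr (Or.inr (Or.inr (Or.inr (Or.inl ⟨rfl, rfl⟩))))⟩
  · exact ⟨g h, Or.inr rfl, Or.inr (Or.inr (Or.inr (Or.inl ⟨rfl, rfl⟩)))⟩
  · exact ⟨h, Or.inl rfl, Or.inr (Or.inr (Or.inl ⟨rfl, rfl⟩))⟩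
  · exact ⟨h, Or.inl rfl, Or.inr (Or.inr (Or.inr (Or.inr (Or.inr ⟨rfl, rfl⟩))))⟩
  · exact ⟨h, Or.inl rfl, Or.inr (Or.inl ⟨rfl, rfl⟩)⟩
  · exact ⟨h, Or.inl rfl, Or.inr (Or.inr (Or.inl ⟨rfl, rfl⟩))⟩
  · exact ⟨h, Or.inl rfl, Or.inr (Or.inr (Or.inr (Or.inr (Or.inr ⟨rfl, rfl⟩))))⟩
  · exact ⟨h, Or.inl rfl, Or.inr (Or.inl ⟨rfl, rfl⟩)⟩

theorem P_lt {N : ℕ} {g : ℕ → ℕ} (hg : ∀ h < N, g h < N) {h : ℕ} (hh : h < N) {i : ℕ}
    (hi : i ≤ 14) : P g h i ≤ 2 * N := by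
  obtain ⟨x, hx, h1⟩ := P_cases g h i hi
  have := hg h hh
  rcases hx with rfl | rfl <;> omega

theorem P_ne (g : ℕ → ℕ) (h : ℕ) {i : ℕ} (hi : i ≤ 14) : P g h i ≠ P g h (nx 14 i) := by
  obtain ⟨x, hx, h1⟩ := P_cases g h i hi
  omega

/-- walk edges are edges of the wedge of circles -/
theorem P_edge {N : ℕ} {g : ℕ → ℕ} (hg : ∀ h < N, g h < N) {h : ℕ} (hh : h < N) {i : ℕ}
    (hi : i ≤ 14) : ({P g h i, P g h (nx 14 i)} : Finset ℕ) ∈ Th N := by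
  obtain ⟨x, hx, h1⟩ := P_cases g h i hi
  have hxN : x < N := by
    have := hg h hh
    rcases hx with rfl | rfl <;> assumption
  refine ⟨⟨P g h i, by simp⟩, Or.inr ⟨x, hxN, ?_⟩⟩
  rcases h1 with ⟨a, b⟩ | ⟨a, b⟩ | ⟨a, b⟩ | ⟨a, b⟩ | ⟨a, b⟩ | ⟨a, b⟩ <;> rw [a, b]
  · left; exact subset_rfl
  · left; rw [Finset.pair_comm]
  · right; right; exact subset_rfl
  · right; right; rw [Finset.pair_comm]
  · right; left; exact subset_rfl
  · right; left; rw [Finset.pair_comm]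

theorem isCx_Th (N : ℕ) : IsCx (Th N) := by
  refine ⟨fun h => Finset.not_nonempty_empty h.1, ?_⟩
  rintro s ⟨_, h⟩ t hts hn
  refine ⟨hn, ?_⟩
  rcases h with rfl | ⟨j, hj, h | h | h⟩
  · left
    exact (Finset.Nonempty.subset_singleton_iff hn).mp hts
  · exact Or.inr ⟨j, hj, Or.inl (hts.trans h)⟩
  · exact Or.inr ⟨j, hj, Or.inr (Or.inl (hts.trans h))⟩
  · exact Or.inr ⟨j, hj, Or.inr (Or.inr (hts.trans h))⟩

theorem isCx_Kp (N : ℕ) (g : ℕ → ℕ) : IsCx (Kp N g) := by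
  constructor
  · rintro (h | ⟨h, _, h1⟩)
    · exact (isCx_Th N).1 h
    · exact (isCx_Gad _ _ _ _).1 h1
  · rintro s (h | ⟨h, hh, h1⟩) t hts hn
    · exact Or.inl ((isCx_Th N).2 s h t hts hn)
    · exact Or.inr ⟨h, hh, (isCx_Gad _ _ _ _).2 s h1 t hts hn⟩

theorem Th_cases {N : ℕ} {s : Finset ℕ} (hs : s ∈ Th N) : ∃ a b, s ⊆ {a, b} ∧
    ((a = 0 ∧ b = 0) ∨ ∃ j < N, (a = 0 ∧ b = 2 * j + 1) ∨ (a = 2 * j + 1 ∧ b = 2 * j + 2) ∨
      (a = 0 ∧ b = 2 * j + 2)) := by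
  obtain ⟨_, h | ⟨j, hj, h | h | h⟩⟩ := hs
  · exact ⟨0, 0, by rw [h]; simp, Or.inl ⟨rfl, rfl⟩⟩
  · exact ⟨_, _, h, Or.inr ⟨j, hj, Or.inl ⟨rfl, rfl⟩⟩⟩
  · exact ⟨_, _, h, Or.inr ⟨j, hj, Or.inr (Or.inl ⟨rfl, rfl⟩)⟩⟩
  · exact ⟨_, _, h, Or.inr ⟨j, hj, Or.inr (Or.inr ⟨rfl, rfl⟩)⟩⟩

/-- every simplex is contained in one of the listed triangles -/
theorem Kp_cases {N : ℕ} {g : ℕ → ℕ} {s : Finset ℕ} (hs : s ∈ Kp N g) :
    s ∈ Th N ∨ ∃ h < N, ∃ i ≤ 14,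
      s ⊆ {P g h i, P g h (nx 14 i), 2 * N + 1 + 16 * h + i} ∨
      s ⊆ {P g h (nx 14 i), 2 * N + 1 + 16 * h + i, 2 * N + 1 + 16 * h + nx 14 i} ∨
      s ⊆ {2 * N + 1 + 16 * h + i, 2 * N + 1 + 16 * h + nx 14 i, 2 * N + 1 + 16 * h + 15} := by
  rcases hs with h | ⟨h, hh, _, i, hi, h1⟩
  · exact Or.inl h
  · exact Or.inr ⟨h, hh, i, hi, h1⟩

theorem nx14 {i : ℕ} (hi : i ≤ 14) : nx 14 i ≤ 14 := nx_le hi

theorem Kp_tri {N : ℕ} {g : ℕ → ℕ} {s : Finset ℕ} (hs : s ∈ Kp N g) :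
    ∃ a b c, s ⊆ {a, b, c} ∧ a < 18 * N + 1 ∧ b < 18 * N + 1 ∧ c < 18 * N + 1 ∨
      (∃ h < N, N ≤ g h) := by
  by_cases hg : ∀ h < N, g h < N
  swap
  · push Not at hg
    exact ⟨0, 0, 0, Or.inr hg⟩
  rcases Kp_cases hs with h | ⟨h, hh, i, hi, h1⟩
  · obtain ⟨a, b, h1, h2⟩ := Th_cases h
    refine ⟨a, b, b, Or.inl ⟨by simpa using h1, ?_⟩⟩
    rcases h2 with ⟨h2, h3⟩ | ⟨j, hj, h2⟩ <;> omega
  · have e1 := P_lt hg hh hi
    have e2 := P_lt hg hh (nx14 hi)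
    have e3 := nx14 hi
    rcases h1 with h1 | h1 | h1
    · exact ⟨_, _, _, Or.inl ⟨h1, by omega, by omega, by omega⟩⟩
    · exact ⟨_, _, _, Or.inl ⟨h1, by omega, by omega, by omega⟩⟩
    · exact ⟨_, _, _, Or.inl ⟨h1, by omega, by omega, by omega⟩⟩

theorem mem_Gad_Kp {N : ℕ} {g : ℕ → ℕ} {h : ℕ} (hh : h < N) {i : ℕ} (hi : i ≤ 14) :
    ({P g h i, P g h (nx 14 i), 2 * N + 1 + 16 * h + i} : Finset ℕ) ∈ Kp N g ∧
    ({P g h (nx 14 i), 2 * N + 1 + 16 * h + i, 2 * N + 1 + 16 * h + nx 14 i} : Finset ℕ) ∈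
      Kp N g ∧
    ({2 * N + 1 + 16 * h + i, 2 * N + 1 + 16 * h + nx 14 i, 2 * N + 1 + 16 * h + 15} :
      Finset ℕ) ∈ Kp N g :=
  ⟨Or.inr ⟨h, hh, ⟨P g h i, by simp⟩, i, hi, Or.inl subset_rfl⟩,
    Or.inr ⟨h, hh, ⟨P g h (nx 14 i), by simp⟩, i, hi, Or.inr (Or.inl subset_rfl)⟩,
    Or.inr ⟨h, hh, ⟨2 * N + 1 + 16 * h + i, by simp⟩, i, hi, Or.inr (Or.inr subset_rfl)⟩⟩

theorem kcx : S_Kcx := by
  intro N g hg
  have hng : ¬ ∃ h < N, N ≤ g h := by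
    rintro ⟨h, hh, h1⟩
    have := hg h hh
    omega
  have hlt : ∀ s ∈ Kp N g, ∀ v ∈ s, v < cN N := by
    intro s hs v hv
    obtain ⟨a, b, c, ⟨h, ha, hb, hc⟩ | h⟩ := Kp_tri hs
    · have := h hv
      simp only [Finset.mem_insert, Finset.mem_singleton] at this
      unfold cN
      rcases this with rfl | rfl | rfl <;> assumption
    · exact absurd h hng
  refine ⟨isCx_Kp N g, ?_, ?_, hlt, ?_⟩
  · apply Set.Finite.subset (Finset.finite_toSet (Finset.range (cN N)).powerset)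
    intro s hs
    rw [Finset.mem_coe, Finset.mem_powerset]
    intro v hv
    exact Finset.mem_range.mpr (hlt s hs v hv)
  · intro s hs
    obtain ⟨a, b, c, ⟨h, _⟩ | h⟩ := Kp_tri hs
    · exact (Finset.card_le_card h).trans Finset.card_le_three
    · exact absurd h hng
  · intro v hv
    have hcx := isCx_Kp N g
    have hTh : ∀ {N : ℕ} {v : ℕ}, ({v} : Finset ℕ) ∈ Th N → v = 0 ∨
        ({v, 0} : Finset ℕ) ∈ Th N := by
      intro N v hv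
      obtain ⟨_, h | ⟨j, hj, h⟩⟩ := hv
      · left; simpa using h
      · right
        refine ⟨⟨v, by simp⟩, Or.inr ⟨j, hj, ?_⟩⟩
        have hv' : v = 0 ∨ v = 2 * j + 1 ∨ v = 2 * j + 2 := by
          rcases h with h | h | h
          all_goals
            have := h (Finset.mem_singleton_self v)
            simp only [Finset.mem_insert, Finset.mem_singleton] at this
            omega
        rcases hv' with rfl | rfl | rfl
        · left; simp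
        · left; rw [Finset.pair_comm]
        · right; right; rw [Finset.pair_comm]
    have hbase : ∀ v, ({v} : Finset ℕ) ∈ Th N →
        Relation.ReflTransGen (fun a b => ({a, b} : Finset ℕ) ∈ Kp N g) v 0 := by
      intro v hv
      rcases hTh hv with rfl | h
      · exact Relation.ReflTransGen.refl
      · exact Relation.ReflTransGen.single (Or.inl h)
    have hring : ∀ h < N, ∀ i ≤ 14,
        Relation.ReflTransGen (fun a b => ({a, b} : Finset ℕ) ∈ Kp N g)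
          (2 * N + 1 + 16 * h + i) 0 := by
      intro h hh i hi
      have h1 := (mem_Gad_Kp (g := g) hh hi).1
      refine Relation.ReflTransGen.head (b := P g h i) ?_ (hbase _ ?_)
      · exact hcx.2 _ h1 _ (by intro x; simp; tauto) ⟨P g h i, by simp⟩
      · exact (isCx_Th N).2 _ (P_edge hg hh hi) _ (by simp) (by simp)
    have happ : ∀ h < N,
        Relation.ReflTransGen (fun a b => ({a, b} : Finset ℕ) ∈ Kp N g)
          (2 * N + 1 + 16 * h + 15) 0 := by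
      intro h hh
      have h1 := (mem_Gad_Kp (g := g) hh (Nat.zero_le 14)).2.2
      refine Relation.ReflTransGen.head (b := 2 * N + 1 + 16 * h + 0) ?_
        (hring h hh 0 (Nat.zero_le 14))
      exact hcx.2 _ h1 _ (by intro x; simp; tauto) ⟨2 * N + 1 + 16 * h + 15, by simp⟩
    rcases Kp_cases hv with h | ⟨h, hh, i, hi, h1⟩
    · exact hbase v h
    · rcases h1 with h1 | h1 | h1
      all_goals
        have h2 := h1 (Finset.mem_singleton_self v)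
        simp only [Finset.mem_insert, Finset.mem_singleton] at h2
      · rcases h2 with rfl | rfl | rfl
        · exact hbase _ ((isCx_Th N).2 _ (P_edge hg hh hi) _ (by simp) (by simp))
        · exact hbase _ ((isCx_Th N).2 _ (P_edge hg hh hi) _ (by simp) (by simp))
        · exact hring h hh i hi
      · rcases h2 with rfl | rfl | rfl
        · exact hbase _ ((isCx_Th N).2 _ (P_edge hg hh hi) _ (by simp) (by simp))
        · exact hring h hh i hi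
        · exact hring h hh _ (nx14 hi)
      · rcases h2 with rfl | rfl | rfl
        · exact hring h hh i hi
        · exact hring h hh _ (nx14 hi)
        · exact happ h hh

end Pool.Agent.TH142.C3
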