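import Pool.Agent.TH142.C3.A

set_option autoImplicit false

namespace Pool.Agent.TH142.C3

open Pool.Agent.TH716.C3 Pool.Agent.Helper281.Sc

section
variable {V G : Type} [Group G] {L : Set (Finset V)} {C : V → V → G}

theorem coc_self (hC : Coc L C) {s : Finset V} (hs : s ∈ L) {u : V} (hu : u ∈ s) :
    C u u = 1 := by
  have := hC s hs u hu u hu u hu
  exact mul_eq_left.mp this

theorem coc_inv (hC : Coc L C) {s : Finset V} (hs : s ∈ L) {u v : V} (hu : u ∈ s)
    (hv : v ∈ s) : C v u = (C u v)⁻¹ := by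
  have h1 := hC s hs u hu v hv u hu
  rw [coc_self hC hs hu] at h1
  exact eq_inv_of_mul_eq_one_right h1

end

section
variable {N : ℕ} {g : ℕ → ℕ} {G : Type} [Group G] {C : ℕ → ℕ → G}

theorem step_hol (hC : Coc (Kp N g) C) {h : ℕ} (hh : h < N) {i : ℕ}
    (hi : i ≤ 14) :
    C (P g h i) (P g h (nx 14 i)) =
      (C (P g h i) (2 * N + 1 + 16 * h + i) *
        C (2 * N + 1 + 16 * h + i) (2 * N + 1 + 16 * h + 15)) *
      (C (P g h (nx 14 i)) (2 * N + 1 + 16 * h + nx 14 i) *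
        C (2 * N + 1 + 16 * h + nx 14 i) (2 * N + 1 + 16 * h + 15))⁻¹ := by
  obtain ⟨t1, t2, t3⟩ := mem_Gad_Kp (g := g) hh hi
  have e1 := hC _ t1 (P g h i) (by simp) (P g h (nx 14 i)) (by simp)
    (2 * N + 1 + 16 * h + i) (by simp)
  have e2 := hC _ t2 (P g h (nx 14 i)) (by simp) (2 * N + 1 + 16 * h + i) (by simp)
    (2 * N + 1 + 16 * h + nx 14 i) (by simp)
  have e3 := hC _ t3 (2 * N + 1 + 16 * h + i) (by simp) (2 * N + 1 + 16 * h + nx 14 i) (by simp)
    (2 * N + 1 + 16 * h + 15) (by simp)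
  rw [← e1, ← e2, ← e3]
  group

theorem hl_inv (hC : Coc (Kp N g) C) {x : ℕ} (hx : x < N) :
    (hl C x)⁻¹ = C 0 (2 * x + 2) * C (2 * x + 2) (2 * x + 1) * C (2 * x + 1) 0 := by
  have m1 : ({0, 2 * x + 1} : Finset ℕ) ∈ Kp N g :=
    Or.inl ⟨by simp, Or.inr ⟨x, hx, Or.inl subset_rfl⟩⟩
  have m2 : ({2 * x + 1, 2 * x + 2} : Finset ℕ) ∈ Kp N g :=
    Or.inl ⟨by simp, Or.inr ⟨x, hx, Or.inr (Or.inl subset_rfl)⟩⟩
  have m3 : ({0, 2 * x + 2} : Finset ℕ) ∈ Kp N g :=
    Or.inl ⟨by simp, Or.inr ⟨x, hx, Or.inr (Or.inr subset_rfl)⟩⟩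
  have c1 : C (2 * x + 1) 0 = (C 0 (2 * x + 1))⁻¹ := coc_inv hC m1 (by simp) (by simp)
  have c2 : C (2 * x + 2) (2 * x + 1) = (C (2 * x + 1) (2 * x + 2))⁻¹ :=
    coc_inv hC m2 (by simp) (by simp)
  have c3 : C (2 * x + 2) 0 = (C 0 (2 * x + 2))⁻¹ := coc_inv hC m3 (by simp) (by simp)
  unfold hl
  rw [c1, c2, c3]
  group

theorem khol : S_Khol := by
  intro N g hg G _ C hC h hh
  have hgh := hg h hh
  have s := fun i (hi : i ≤ 14) => step_hol (g := g) hC hh hi
  obtain ⟨p0, p1, p2, p3, p4, p5, p6, p7, p8, p9, p10, p11, p12, p13, p14⟩ := Pvals g h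
  have e : ev (hl C) (rl g h) = (hl C (g h))⁻¹ * (hl C h * (hl C (g h) * ((hl C h)⁻¹ *
      ((hl C h)⁻¹ * 1)))) := rfl
  rw [e, hl_inv hC hgh, hl_inv hC hh]
  unfold hl
  have s0 := s 0 (by norm_num)
  have s1 := s 1 (by norm_num)
  have s2 := s 2 (by norm_num)
  have s3 := s 3 (by norm_num)
  have s4 := s 4 (by norm_num)
  have s5 := s 5 (by norm_num)
  have s6 := s 6 (by norm_num)
  have s7 := s 7 (by norm_num)
  have s8 := s 8 (by norm_num)
  have s9 := s 9 (by norm_num)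
  have s10 := s 10 (by norm_num)
  have s11 := s 11 (by norm_num)
  have s12 := s 12 (by norm_num)
  have s13 := s 13 (by norm_num)
  have s14 := s 14 (by norm_num)
  have n0 : nx 14 0 = 1 := rfl
  have n1 : nx 14 1 = 2 := rfl
  have n2 : nx 14 2 = 3 := rfl
  have n3 : nx 14 3 = 4 := rfl
  have n4 : nx 14 4 = 5 := rfl
  have n5 : nx 14 5 = 6 := rfl
  have n6 : nx 14 6 = 7 := rfl
  have n7 : nx 14 7 = 8 := rfl
  have n8 : nx 14 8 = 9 := rfl
  have n9 : nx 14 9 = 10 := rfl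
  have n10 : nx 14 10 = 11 := rfl
  have n11 : nx 14 11 = 12 := rfl
  have n12 : nx 14 12 = 13 := rfl
  have n13 : nx 14 13 = 14 := rfl
  have n14 : nx 14 14 = 0 := rfl
  rw [n0] at s0
  rw [n1] at s1
  rw [n2] at s2
  rw [n3] at s3
  rw [n4] at s4
  rw [n5] at s5
  rw [n6] at s6
  rw [n7] at s7
  rw [n8] at s8
  rw [n9] at s9
  rw [n10] at s10
  rw [n11] at s11
  rw [n12] at s12
  rw [n13] at s13
  rw [n14] at s14
  generalize C (P g h 0) (2 * N + 1 + 16 * h + 0) *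
        C (2 * N + 1 + 16 * h + 0) (2 * N + 1 + 16 * h + 15) = b0 at s0 s14
  generalize C (P g h 1) (2 * N + 1 + 16 * h + 1) *
        C (2 * N + 1 + 16 * h + 1) (2 * N + 1 + 16 * h + 15) = b1 at s0 s1
  generalize C (P g h 2) (2 * N + 1 + 16 * h + 2) *
        C (2 * N + 1 + 16 * h + 2) (2 * N + 1 + 16 * h + 15) = b2 at s1 s2
  generalize C (P g h 3) (2 * N + 1 + 16 * h + 3) *
        C (2 * N + 1 + 16 * h + 3) (2 * N + 1 + 16 * h + 15) = b3 at s2 s3
  generalize C (P g h 4) (2 * N + 1 + 16 * h + 4) *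
        C (2 * N + 1 + 16 * h + 4) (2 * N + 1 + 16 * h + 15) = b4 at s3 s4
  generalize C (P g h 5) (2 * N + 1 + 16 * h + 5) *
        C (2 * N + 1 + 16 * h + 5) (2 * N + 1 + 16 * h + 15) = b5 at s4 s5
  generalize C (P g h 6) (2 * N + 1 + 16 * h + 6) *
        C (2 * N + 1 + 16 * h + 6) (2 * N + 1 + 16 * h + 15) = b6 at s5 s6
  generalize C (P g h 7) (2 * N + 1 + 16 * h + 7) *
        C (2 * N + 1 + 16 * h + 7) (2 * N + 1 + 16 * h + 15) = b7 at s6 s7
  generalize C (P g h 8) (2 * N + 1 + 16 * h + 8) *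
        C (2 * N + 1 + 16 * h + 8) (2 * N + 1 + 16 * h + 15) = b8 at s7 s8
  generalize C (P g h 9) (2 * N + 1 + 16 * h + 9) *
        C (2 * N + 1 + 16 * h + 9) (2 * N + 1 + 16 * h + 15) = b9 at s8 s9
  generalize C (P g h 10) (2 * N + 1 + 16 * h + 10) *
        C (2 * N + 1 + 16 * h + 10) (2 * N + 1 + 16 * h + 15) = b10 at s9 s10
  generalize C (P g h 11) (2 * N + 1 + 16 * h + 11) *
        C (2 * N + 1 + 16 * h + 11) (2 * N + 1 + 16 * h + 15) = b11 at s10 s11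
  generalize C (P g h 12) (2 * N + 1 + 16 * h + 12) *
        C (2 * N + 1 + 16 * h + 12) (2 * N + 1 + 16 * h + 15) = b12 at s11 s12
  generalize C (P g h 13) (2 * N + 1 + 16 * h + 13) *
        C (2 * N + 1 + 16 * h + 13) (2 * N + 1 + 16 * h + 15) = b13 at s12 s13
  generalize C (P g h 14) (2 * N + 1 + 16 * h + 14) *
        C (2 * N + 1 + 16 * h + 14) (2 * N + 1 + 16 * h + 15) = b14 at s13 s14
  rw [p0, p1] at s0
  rw [p1, p2] at s1
  rw [p2, p3] at s2
  rw [p3, p4] at s3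
  rw [p4, p5] at s4
  rw [p5, p6] at s5
  rw [p6, p7] at s6
  rw [p7, p8] at s7
  rw [p8, p9] at s8
  rw [p9, p10] at s9
  rw [p10, p11] at s10
  rw [p11, p12] at s11
  rw [p12, p13] at s12
  rw [p13, p14] at s13
  rw [p14, p0] at s14
  have key : C 0 (2 * g h + 2) * C (2 * g h + 2) (2 * g h + 1) * C (2 * g h + 1) 0 *
      (C 0 (2 * h + 1) * C (2 * h + 1) (2 * h + 2) * C (2 * h + 2) 0 *
      (C 0 (2 * g h + 1) * C (2 * g h + 1) (2 * g h + 2) * C (2 * g h + 2) 0 *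
      (C 0 (2 * h + 2) * C (2 * h + 2) (2 * h + 1) * C (2 * h + 1) 0 *
      (C 0 (2 * h + 2) * C (2 * h + 2) (2 * h + 1) * C (2 * h + 1) 0 * 1)))) =
      (b0 * b1⁻¹) * (b1 * b2⁻¹) * (b2 * b3⁻¹) * ((b3 * b4⁻¹) * (b4 * b5⁻¹) * (b5 * b6⁻¹) *
      ((b6 * b7⁻¹) * (b7 * b8⁻¹) * (b8 * b9⁻¹) * ((b9 * b10⁻¹) * (b10 * b11⁻¹) * (b11 * b12⁻¹) *
      ((b12 * b13⁻¹) * (b13 * b14⁻¹) * (b14 * b0⁻¹) * 1)))) :=
    congrArg₂ _ (congrArg₂ _ (congrArg₂ _ s0 s1) s2) (congrArg₂ _ (congrArg₂ _ (congrArg₂ _ s3 s4)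
      s5) (congrArg₂ _ (congrArg₂ _ (congrArg₂ _ s6 s7) s8) (congrArg₂ _ (congrArg₂ _
      (congrArg₂ _ s9 s10) s11) (congrArg₂ _ (congrArg₂ _ (congrArg₂ _ s12 s13) s14) rfl))))
  rw [key]
  group

/-- local potentials -/
def GP (C : ℕ → ℕ → G) (b : ℕ → G) (u v : ℕ) : Prop := C u v = (b u)⁻¹ * b v

theorem ktriv : S_Ktriv := by
  intro N g hg G _ C hC hhl
  let b : ℕ → G := fun v => if v ≤ 2 * N then C 0 v else
    C 0 (P g ((v - (2 * N + 1)) / 16) (if (v - (2 * N + 1)) % 16 = 15 then 0 else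
      (v - (2 * N + 1)) % 16)) *
    C (P g ((v - (2 * N + 1)) / 16) (if (v - (2 * N + 1)) % 16 = 15 then 0 else
      (v - (2 * N + 1)) % 16)) (if (v - (2 * N + 1)) % 16 = 15 then v - 15 else v) *
    (if (v - (2 * N + 1)) % 16 = 15 then C (v - 15) v else 1)
  have b1 : ∀ v, v ≤ 2 * N → b v = C 0 v := fun v hv => if_pos hv
  have b2 : ∀ h i, i ≤ 14 → b (2 * N + 1 + 16 * h + i) = C 0 (P g h i) *
      C (P g h i) (2 * N + 1 + 16 * h + i) := by
    intro h i hi
    have e0 : ¬ (2 * N + 1 + 16 * h + i ≤ 2 * N) := by omega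
    have e1 : (2 * N + 1 + 16 * h + i - (2 * N + 1)) / 16 = h := by omega
    have e2 : (2 * N + 1 + 16 * h + i - (2 * N + 1)) % 16 = i := by omega
    simp only [b]
    rw [if_neg e0, e1, e2]
    rw [if_neg (by omega), if_neg (by omega), if_neg (by omega), mul_one]
  have b3 : ∀ h, b (2 * N + 1 + 16 * h + 15) = C 0 (P g h 0) *
      C (P g h 0) (2 * N + 1 + 16 * h + 0) *
      C (2 * N + 1 + 16 * h + 0) (2 * N + 1 + 16 * h + 15) := by
    intro h
    have e0 : ¬ (2 * N + 1 + 16 * h + 15 ≤ 2 * N) := by omega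
    have e1 : (2 * N + 1 + 16 * h + 15 - (2 * N + 1)) / 16 = h := by omega
    have e2 : (2 * N + 1 + 16 * h + 15 - (2 * N + 1)) % 16 = 15 := by omega
    have e3 : 2 * N + 1 + 16 * h + 15 - 15 = 2 * N + 1 + 16 * h + 0 := by omega
    simp only [b]
    rw [if_neg e0, e1, e2, e3]
    simp only [if_true]
  have h00 : C 0 0 = 1 := coc_self hC (s := {0}) (Or.inl ⟨by simp, Or.inl rfl⟩) (by simp)
  -- closure properties
  have hsym : ∀ {s : Finset ℕ}, s ∈ Kp N g → ∀ {u v : ℕ}, u ∈ s → v ∈ s → GP C b u v →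
      GP C b v u := by
    intro s hs u v hu hv h1
    unfold GP at h1 ⊢
    rw [coc_inv hC hs hu hv, h1]
    group
  have htr : ∀ {s : Finset ℕ}, s ∈ Kp N g → ∀ {u v w : ℕ}, u ∈ s → v ∈ s → w ∈ s →
      GP C b u v → GP C b v w → GP C b u w := by
    intro s hs u v w hu hv hw h1 h2
    unfold GP at h1 h2 ⊢
    rw [← hC s hs u hu v hv w hw, h1, h2]
    group
  have hself : ∀ {s : Finset ℕ}, s ∈ Kp N g → ∀ {u : ℕ}, u ∈ s → GP C b u u := by
    intro s hs u hu
    unfold GP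
    rw [coc_self hC hs hu]
    group
  -- three vertices, two edges suffice
  have h3 : ∀ {s : Finset ℕ}, s ∈ Kp N g → ∀ {u v w : ℕ}, s = {u, v, w} → GP C b u v →
      GP C b v w → ∀ x ∈ s, ∀ y ∈ s, GP C b x y := by
    intro s hs u v w hsuvw h1 h2 x hx y hy
    have hu : u ∈ s := by rw [hsuvw]; simp
    have hv : v ∈ s := by rw [hsuvw]; simp
    have hw : w ∈ s := by rw [hsuvw]; simp
    have h12 := h1
    have h13 := htr hs hu hv hw h1 h2
    have h21 := hsym hs hu hv h1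
    have h32 := hsym hs hv hw h2
    have h31 := hsym hs hu hw h13
    rw [hsuvw] at hx hy
    simp only [Finset.mem_insert, Finset.mem_singleton] at hx hy
    rcases hx with rfl | rfl | rfl <;> rcases hy with rfl | rfl | rfl <;>
      first | assumption | exact hself hs (by assumption)
  have hThe : ∀ s ∈ Th N, ∀ x ∈ s, ∀ y ∈ s, GP C b x y := by
    have key0 : ∀ j < N, GP C b 0 (2 * j + 1) := by
      intro j hj
      unfold GP
      rw [b1 0 (by omega), b1 (2 * j + 1) (by omega), h00]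
      group
    have key2 : ∀ j < N, GP C b 0 (2 * j + 2) := by
      intro j hj
      unfold GP
      rw [b1 0 (by omega), b1 (2 * j + 2) (by omega), h00]
      group
    have key1 : ∀ j < N, GP C b (2 * j + 1) (2 * j + 2) := by
      intro j hj
      unfold GP
      rw [b1 (2 * j + 1) (by omega), b1 (2 * j + 2) (by omega)]
      have h4 := hhl j hj
      unfold hl at h4
      have m3 : ({0, 2 * j + 2} : Finset ℕ) ∈ Kp N g :=
        Or.inl ⟨by simp, Or.inr ⟨j, hj, Or.inr (Or.inr subset_rfl)⟩⟩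
      have c3 : C (2 * j + 2) 0 = (C 0 (2 * j + 2))⁻¹ := coc_inv hC m3 (by simp) (by simp)
      rw [c3] at h4
      rw [mul_inv_eq_one] at h4
      rw [← h4]
      group
    intro s hs x hx y hy
    have hsK : s ∈ Kp N g := Or.inl hs
    obtain ⟨u, v, huv, h4⟩ := Th_cases hs
    have hx' := huv hx
    have hy' := huv hy
    simp only [Finset.mem_insert, Finset.mem_singleton] at hx' hy'
    have hGP : GP C b u v := by
      rcases h4 with ⟨rfl, rfl⟩ | ⟨j, hj, ⟨rfl, rfl⟩ | ⟨rfl, rfl⟩ | ⟨rfl, rfl⟩⟩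
      · unfold GP
        rw [h00]
        group
      · exact key0 j hj
      · exact key1 j hj
      · exact key2 j hj
    rcases hx' with rfl | rfl <;> rcases hy' with rfl | rfl
    · exact hself hsK hx
    · exact hGP
    · exact hsym hsK hy hx hGP
    · exact hself hsK hx
  refine ⟨b, ?_⟩
  intro s hs u hu v hv
  change GP C b u v
  rcases Kp_cases hs with h | ⟨h, hh, i, hi, h1⟩
  · exact hThe s h u hu v hv
  · obtain ⟨t1, t2, t3⟩ := mem_Gad_Kp (g := g) hh hi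
    have hni := nx14 hi
    -- edges
    have hpy : ∀ i, i ≤ 14 → GP C b (P g h i) (2 * N + 1 + 16 * h + i) := by
      intro i hi
      unfold GP
      rw [b1 _ (P_lt hg hh hi), b2 h i hi]
      group
    have hpp : GP C b (P g h (nx 14 i)) (P g h i) :=
      hThe _ (P_edge hg hh hi) _ (by simp) _ (by simp)
    have hyy : ∀ i ≤ 14, GP C b (2 * N + 1 + 16 * h + i) (2 * N + 1 + 16 * h + nx 14 i) := by
      intro i hi
      obtain ⟨t1, t2, t3⟩ := mem_Gad_Kp (g := g) hh hi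
      have hpp : GP C b (P g h (nx 14 i)) (P g h i) :=
        hThe _ (P_edge hg hh hi) _ (by simp) _ (by simp)
      have h5 : GP C b (P g h (nx 14 i)) (2 * N + 1 + 16 * h + i) :=
        htr t1 (by simp) (by simp) (by simp) hpp (hpy i hi)
      exact htr t2 (by simp) (by simp) (by simp) (hsym t2 (by simp) (by simp) h5)
        (hpy _ (nx14 hi))
    have hyz : ∀ i ≤ 14, GP C b (2 * N + 1 + 16 * h + i) (2 * N + 1 + 16 * h + 15) := by
      intro i
      induction i with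
      | zero =>
        intro _
        unfold GP
        rw [b2 h 0 (by omega), b3 h]
        group
      | succ i ih =>
        intro hi
        have hn : nx 14 i = i + 1 := by unfold nx; rw [if_pos (by omega)]
        obtain ⟨_, _, t3⟩ := mem_Gad_Kp (g := g) hh (show i ≤ 14 by omega)
        have h5 := hyy i (by omega)
        rw [hn] at h5 t3
        exact htr t3 (by simp) (by simp) (by simp) (hsym t3 (by simp) (by simp) h5)
          (ih (by omega))
    rcases h1 with h1 | h1 | h1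
    · exact h3 t1 (u := P g h (nx 14 i)) (v := P g h i) (w := 2 * N + 1 + 16 * h + i)
        (Finset.insert_comm _ _ _) hpp (hpy i hi) u (h1 hu) v (h1 hv)
    · exact h3 t2 (u := 2 * N + 1 + 16 * h + i) (v := 2 * N + 1 + 16 * h + nx 14 i)
        (w := P g h (nx 14 i)) (by ext; simp; tauto) (hyy i hi)
        (hsym t2 (by simp) (by simp) (hpy _ hni)) u (h1 hu) v (h1 hv)
    · exact h3 t3 rfl (hyy i hi) (hyz _ hni) u (h1 hu) v (h1 hv)

end

end Pool.Agent.TH142.C3
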