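import Pool.Agent.TH142.C3.B

set_option autoImplicit false

namespace Pool.Agent.TH142.C3

open Pool.Agent.TH716.C3 Pool.Agent.Helper281.Sc

section
variable {G : Type} [Group G]

/-- cocycle on the wedge of circles -/
def C0 (γ : ℕ → G) (u v : ℕ) : G :=
  if u = 0 then (if v % 2 = 1 then γ (v / 2) else 1) else
    if v = 0 then (if u % 2 = 1 then (γ (u / 2))⁻¹ else 1) else 1

theorem C0_self (γ : ℕ → G) (u : ℕ) : C0 γ u u = 1 := by
  unfold C0
  split_ifs with h1 h2 <;> first | rfl | (exfalso; omega)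

theorem C0_inv (γ : ℕ → G) (u v : ℕ) : C0 γ v u = (C0 γ u v)⁻¹ := by
  unfold C0
  by_cases hu : u = 0
  · by_cases hv : v = 0
    · subst hu hv
      simp
    · subst hu
      simp only [hv, if_true, if_false]
      split_ifs <;> simp
  · by_cases hv : v = 0
    · subst hv
      simp only [hu, if_true, if_false]
      split_ifs <;> simp
    · simp [hu, hv]

/-- potentials along the walk -/
def bb (γ : ℕ → G) (g : ℕ → ℕ) (h : ℕ) : ℕ → G
  | 0 => 1
  | i + 1 => (C0 γ (P g h i) (P g h (i + 1)))⁻¹ * bb γ g h i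

theorem C0a (γ : ℕ → G) (x : ℕ) : C0 γ 0 (2 * x + 1) = γ x := by
  unfold C0
  rw [if_pos rfl, if_pos (by omega)]
  congr 1
  omega

theorem C0b (γ : ℕ → G) (x : ℕ) : C0 γ (2 * x + 1) 0 = (γ x)⁻¹ := by
  rw [C0_inv, C0a]

theorem C0c (γ : ℕ → G) (x : ℕ) : C0 γ 0 (2 * x + 2) = 1 := by
  unfold C0
  rw [if_pos rfl, if_neg (by omega)]

theorem C0d (γ : ℕ → G) (x : ℕ) : C0 γ (2 * x + 2) 0 = 1 := by
  rw [C0_inv, C0c, inv_one]

theorem C0e (γ : ℕ → G) (x : ℕ) : C0 γ (2 * x + 1) (2 * x + 2) = 1 := by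
  unfold C0
  rw [if_neg (by omega), if_neg (by omega)]

theorem C0f (γ : ℕ → G) (x : ℕ) : C0 γ (2 * x + 2) (2 * x + 1) = 1 := by
  unfold C0
  rw [if_neg (by omega), if_neg (by omega)]

theorem bb_step (γ : ℕ → G) (g : ℕ → ℕ) (h : ℕ) (hγ : ev γ (rl g h) = 1) (i : ℕ) (hi : i ≤ 14) :
    C0 γ (P g h i) (P g h (nx 14 i)) = bb γ g h i * (bb γ g h (nx 14 i))⁻¹ := by
  by_cases hi' : i < 14
  · have hn : nx 14 i = i + 1 := if_pos hi'
    rw [hn, bb]
    group
  · have hi14 : i = 14 := by omega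
    subst hi14
    have hn : nx 14 14 = 0 := rfl
    rw [hn]
    obtain ⟨p0, p1, p2, p3, p4, p5, p6, p7, p8, p9, p10, p11, p12, p13, p14⟩ := Pvals g h
    have e : ev γ (rl g h) = (γ (g h))⁻¹ * (γ h * (γ (g h) * ((γ h)⁻¹ * ((γ h)⁻¹ * 1)))) := rfl
    rw [e] at hγ
    simp only [bb, p0, p1, p2, p3, p4, p5, p6, p7, p8, p9, p10, p11, p12, p13, p14, C0a, C0b, C0c,
      C0d, C0e, C0f, inv_one, one_mul, mul_one, inv_inv]
    rw [mul_one] at hγ
    have h2 : γ h * γ h = (γ (g h))⁻¹ * γ h * γ (g h) := by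
      have h3 : (γ (g h))⁻¹ * γ h * γ (g h) * (γ h * γ h)⁻¹ = 1 := by
        rw [← hγ]
        group
      exact (mul_inv_eq_one.mp h3).symm
    have h5 : (γ (g h))⁻¹ * ((γ h)⁻¹ * γ (g h)) = (γ h * γ h)⁻¹ := by
      rw [h2]
      group
    rw [h5]
    group

/-- values on edges to ring vertices -/
def Dg (γ : ℕ → G) (N : ℕ) (g : ℕ → ℕ) (x y : ℕ) : G :=
  if y - (2 * N + 1) - 16 * ((y - (2 * N + 1)) / 16) = 15 then 1 else
  if x = P g ((y - (2 * N + 1)) / 16) ((y - (2 * N + 1)) % 16) then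
    bb γ g ((y - (2 * N + 1)) / 16) ((y - (2 * N + 1)) % 16) else
    bb γ g ((y - (2 * N + 1)) / 16) (nx 14 ((y - (2 * N + 1)) % 16))

/-- the cocycle -/
def CC (γ : ℕ → G) (N : ℕ) (g : ℕ → ℕ) (u v : ℕ) : G :=
  if u ≤ 2 * N then (if v ≤ 2 * N then C0 γ u v else Dg γ N g u v) else
    if v ≤ 2 * N then (Dg γ N g v u)⁻¹ else 1

theorem CC_self (γ : ℕ → G) (N : ℕ) (g : ℕ → ℕ) (u : ℕ) : CC γ N g u u = 1 := by
  unfold CC
  split_ifs with h
  · exact C0_self γ u
  · rfl

theorem CC_inv (γ : ℕ → G) (N : ℕ) (g : ℕ → ℕ) (u v : ℕ) :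
    CC γ N g v u = (CC γ N g u v)⁻¹ := by
  unfold CC
  by_cases hu : u ≤ 2 * N <;> by_cases hv : v ≤ 2 * N
  · simp only [hu, hv, if_true]
    exact C0_inv γ u v
  · simp [hu, hv]
  · simp [hu, hv]
  · simp [hu, hv]

/-- one equation suffices on a triangle -/
theorem tri_coc {C : ℕ → ℕ → G} (h0 : ∀ u, C u u = 1) (h1 : ∀ u v, C v u = (C u v)⁻¹)
    {a b c : ℕ} (h : C a b * C b c = C a c) {s : Finset ℕ} (hs : s ⊆ {a, b, c}) :
    ∀ u ∈ s, ∀ v ∈ s, ∀ w ∈ s, C u v * C v w = C u w := by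
  have key : ∀ u ∈ ({a, b, c} : Finset ℕ), ∀ v ∈ ({a, b, c} : Finset ℕ),
      C u v = (C a u)⁻¹ * C a v := by
    have hbc : C b c = (C a b)⁻¹ * C a c := by
      rw [← h]
      group
    intro u hu v hv
    simp only [Finset.mem_insert, Finset.mem_singleton] at hu hv
    rcases hu with rfl | rfl | rfl
    · rw [h0, inv_one, one_mul]
    · rcases hv with rfl | rfl | rfl
      · rw [h0, mul_one]
        exact h1 _ _
      · rw [h0]
        group
      · exact hbc
    · rcases hv with rfl | rfl | rfl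
      · rw [h0, mul_one]
        exact h1 _ _
      · rw [h1, hbc]
        group
      · rw [h0]
        group
  intro u hu v hv w hw
  rw [key u (hs hu) v (hs hv), key v (hs hv) w (hs hw), key u (hs hu) w (hs hw)]
  group

theorem kext : S_Kext := by
  intro N g hg G _ γ hγ
  refine ⟨CC γ N g, ?_, ?_⟩
  · intro s hs
    rcases Kp_cases hs with h | ⟨h, hh, i, hi, h1⟩
    · obtain ⟨a, b, hab, _⟩ := Th_cases h
      refine tri_coc (CC_self γ N g) (CC_inv γ N g) (a := a) (b := b) (c := b) ?_ ?_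
      · rw [CC_self, mul_one]
      · simpa using hab
    · have hD : ∀ x i, x ≤ 2 * N → i ≤ 14 → CC γ N g x (2 * N + 1 + 16 * h + i) =
          if x = P g h i then bb γ g h i else bb γ g h (nx 14 i) := by
        intro x i hx hi
        have e1 : (2 * N + 1 + 16 * h + i - (2 * N + 1)) / 16 = h := by omega
        have e2 : (2 * N + 1 + 16 * h + i - (2 * N + 1)) % 16 = i := by omega
        unfold CC
        rw [if_pos hx, if_neg (by omega)]
        unfold Dg
        rw [e1, e2, if_neg (by omega)]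
      have hni := nx14 hi
      have hne := P_ne g h hi
      have a1 : CC γ N g (P g h i) (2 * N + 1 + 16 * h + i) = bb γ g h i := by
        rw [hD _ _ (P_lt hg hh hi) hi, if_pos rfl]
      have a2 : CC γ N g (P g h (nx 14 i)) (2 * N + 1 + 16 * h + i) = bb γ g h (nx 14 i) := by
        rw [hD _ _ (P_lt hg hh hni) hi, if_neg hne.symm]
      have a3 : CC γ N g (P g h (nx 14 i)) (2 * N + 1 + 16 * h + nx 14 i) =
          bb γ g h (nx 14 i) := by
        rw [hD _ _ (P_lt hg hh hni) hni, if_pos rfl]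
      have a4 : ∀ x y, 2 * N < x → 2 * N < y → CC γ N g x y = 1 := by
        intro x y hx hy
        unfold CC
        rw [if_neg (by omega), if_neg (by omega)]
      have a5 : CC γ N g (P g h i) (P g h (nx 14 i)) = bb γ g h i * (bb γ g h (nx 14 i))⁻¹ := by
        unfold CC
        rw [if_pos (P_lt hg hh hi), if_pos (P_lt hg hh hni)]
        exact bb_step γ g h (hγ h hh) i hi
      rcases h1 with h1 | h1 | h1
      · refine tri_coc (CC_self γ N g) (CC_inv γ N g) ?_ h1
        rw [a5, a2, a1]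
        group
      · refine tri_coc (CC_self γ N g) (CC_inv γ N g) ?_ h1
        rw [a2, a3, a4 _ _ (by omega) (by omega), mul_one]
      · refine tri_coc (CC_self γ N g) (CC_inv γ N g) ?_ h1
        rw [a4 _ _ (by omega) (by omega), a4 _ _ (by omega) (by omega),
          a4 _ _ (by omega) (by omega), mul_one]
  · intro h hh
    unfold hl CC
    rw [if_pos (by omega), if_pos (by omega), if_pos (by omega), if_pos (by omega),
      if_pos (by omega), if_pos (by omega), C0a, C0e, C0d, mul_one, mul_one]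

end

/-! ### second cohomology -/

section
variable {M : Type} [AddCommGroup M]

/-- on the wedge -/
def mth (μ : ℕ → M) (x y : ℕ) : M := if x = 0 ∧ y % 2 = 1 then μ (y / 2) else 0

/-- antisymmetric version -/
def Mth (μ : ℕ → M) (x y : ℕ) : M := if x < y then mth μ x y else -mth μ y x

/-- antisymmetric version of `d` -/
def Dd (d : ℕ → ℕ → ℕ → M) (x y w : ℕ) : M := if x < y then d x y w else -d y x w

/-- the constant part -/
def ec (N : ℕ) (g : ℕ → ℕ) (d : ℕ → ℕ → ℕ → M) (h i : ℕ) : M :=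
  (if i < 14 then d (P g h (nx 14 i)) (2 * N + 1 + 16 * h + i) (2 * N + 1 + 16 * h + nx 14 i) else
    -d (P g h (nx 14 i)) (2 * N + 1 + 16 * h + nx 14 i) (2 * N + 1 + 16 * h + i)) -
    Dd d (P g h i) (P g h (nx 14 i)) (2 * N + 1 + 16 * h + i)

/-- the value at the edge from the walk to the previous ring vertex -/
def qq (N : ℕ) (g : ℕ → ℕ) (d : ℕ → ℕ → ℕ → M) (μ : ℕ → M) (h i : ℕ) : M :=
  Dd d (P g h i) (P g h (nx 14 i)) (2 * N + 1 + 16 * h + i) - Mth μ (P g h i) (P g h (nx 14 i))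

/-- the value at ring edges -/
def ee (N : ℕ) (g : ℕ → ℕ) (d : ℕ → ℕ → ℕ → M) (μ : ℕ → M) (h i : ℕ) : M :=
  ec N g d h i + Mth μ (P g h i) (P g h (nx 14 i))

/-- the value at edges to the apex -/
def nn (N : ℕ) (g : ℕ → ℕ) (d : ℕ → ℕ → ℕ → M) (μ : ℕ → M) (h : ℕ) : ℕ → M
  | 0 => 0
  | i + 1 => nn N g d μ h i - ee N g d μ h i +
      d (2 * N + 1 + 16 * h + i) (2 * N + 1 + 16 * h + (i + 1)) (2 * N + 1 + 16 * h + 15)

/-- the closing value -/
def muu (N : ℕ) (g : ℕ → ℕ) (d : ℕ → ℕ → ℕ → M) (h : ℕ) : M :=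
  d (2 * N + 1 + 16 * h + 0) (2 * N + 1 + 16 * h + 14) (2 * N + 1 + 16 * h + 15) -
    (∑ i ∈ Finset.range 14,
      d (2 * N + 1 + 16 * h + i) (2 * N + 1 + 16 * h + (i + 1)) (2 * N + 1 + 16 * h + 15) -
    ∑ i ∈ Finset.range 15, ec N g d h i)

theorem nn_sum (N : ℕ) (g : ℕ → ℕ) (d : ℕ → ℕ → ℕ → M) (μ : ℕ → M) (h k : ℕ) :
    nn N g d μ h k = ∑ i ∈ Finset.range k,
      d (2 * N + 1 + 16 * h + i) (2 * N + 1 + 16 * h + (i + 1)) (2 * N + 1 + 16 * h + 15) -
      ∑ i ∈ Finset.range k, ee N g d μ h i := by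
  induction k with
  | zero => simp [nn]
  | succ k ih =>
    rw [nn, ih, Finset.sum_range_succ, Finset.sum_range_succ]
    abel

theorem Mth_a (μ : ℕ → M) (x : ℕ) : Mth μ 0 (2 * x + 1) = μ x := by
  unfold Mth mth
  rw [if_pos (by omega), if_pos ⟨rfl, by omega⟩]
  congr 1
  omega

theorem Mth_b (μ : ℕ → M) (x : ℕ) : Mth μ (2 * x + 1) 0 = -μ x := by
  unfold Mth mth
  rw [if_neg (by omega), if_pos ⟨rfl, by omega⟩]
  congr 2
  omega

theorem Mth_c (μ : ℕ → M) (x : ℕ) : Mth μ 0 (2 * x + 2) = 0 := by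
  unfold Mth mth
  rw [if_pos (by omega), if_neg (by omega)]

theorem Mth_d (μ : ℕ → M) (x : ℕ) : Mth μ (2 * x + 2) 0 = 0 := by
  unfold Mth mth
  rw [if_neg (by omega), if_neg (by omega), neg_zero]

theorem Mth_e (μ : ℕ → M) (x : ℕ) : Mth μ (2 * x + 1) (2 * x + 2) = 0 := by
  unfold Mth mth
  rw [if_pos (by omega), if_neg (by omega)]

theorem Mth_f (μ : ℕ → M) (x : ℕ) : Mth μ (2 * x + 2) (2 * x + 1) = 0 := by
  unfold Mth mth
  rw [if_neg (by omega), if_neg (by omega), neg_zero]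

theorem Mth_sum (g : ℕ → ℕ) (μ : ℕ → M) (h : ℕ) :
    ∑ i ∈ Finset.range 15, Mth μ (P g h i) (P g h (nx 14 i)) = -μ h := by
  obtain ⟨p0, p1, p2, p3, p4, p5, p6, p7, p8, p9, p10, p11, p12, p13, p14⟩ := Pvals g h
  have n0 : nx 14 0 = 1 := rfl
  have n1 : nx 14 1 = 2 := rfl
  have n2 : nx 14 2 = 3 := rfl
  have n3 : nx 14 3 = 4 := rfl
  have n4 : nx 14 4 = 5 := rfl
  have n5 : nx 14 5 = 6 := rfl
  have n6 : nx 14 6 = 7 := rfl
  have n7 : nx 14 7 = 8 := rfl
  have n8 : nx 14 8 = 9 := rfl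
  have n9 : nx 14 9 = 10 := rfl
  have n10 : nx 14 10 = 11 := rfl
  have n11 : nx 14 11 = 12 := rfl
  have n12 : nx 14 12 = 13 := rfl
  have n13 : nx 14 13 = 14 := rfl
  have n14 : nx 14 14 = 0 := rfl
  simp only [Finset.sum_range_succ, Finset.sum_range_zero, n0, n1, n2, n3, n4, n5, n6, n7, n8, n9,
    n10, n11, n12, n13, n14, p0, p1, p2, p3, p4, p5, p6, p7, p8, p9, p10, p11, p12, p13, p14,
    Mth_a, Mth_b, Mth_c, Mth_d, Mth_e, Mth_f]
  abel

theorem closing (N : ℕ) (g : ℕ → ℕ) (d : ℕ → ℕ → ℕ → M) (h : ℕ) :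
    nn N g d (muu N g d) h 14 - ee N g d (muu N g d) h 14 =
      d (2 * N + 1 + 16 * h + 0) (2 * N + 1 + 16 * h + 14) (2 * N + 1 + 16 * h + 15) := by
  have e1 : ∑ i ∈ Finset.range 15, ee N g d (muu N g d) h i =
      ∑ i ∈ Finset.range 15, ec N g d h i - muu N g d h := by
    unfold ee
    rw [Finset.sum_add_distrib, Mth_sum, sub_eq_add_neg]
  have e2 : ∑ i ∈ Finset.range 15, ee N g d (muu N g d) h i =
      ∑ i ∈ Finset.range 14, ee N g d (muu N g d) h i + ee N g d (muu N g d) h 14 :=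
    Finset.sum_range_succ _ _
  rw [nn_sum]
  have e3 : ∑ i ∈ Finset.range 14, ee N g d (muu N g d) h i =
      ∑ i ∈ Finset.range 15, ec N g d h i - muu N g d h - ee N g d (muu N g d) h 14 := by
    rw [← e1, e2]
    abel
  rw [e3]
  unfold muu
  abel

/-- the cochain -/
def mm (N : ℕ) (g : ℕ → ℕ) (d : ℕ → ℕ → ℕ → M) (a b : ℕ) : M :=
  if b ≤ 2 * N then mth (muu N g d) a b else
    if a ≤ 2 * N then
      (if a = P g ((b - (2 * N + 1)) / 16) ((b - (2 * N + 1)) % 16) then 0 else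
        qq N g d (muu N g d) ((b - (2 * N + 1)) / 16) ((b - (2 * N + 1)) % 16)) else
      if (b - (2 * N + 1)) % 16 = 15 then
        nn N g d (muu N g d) ((b - (2 * N + 1)) / 16) ((a - (2 * N + 1)) % 16) else
      if (b - (2 * N + 1)) % 16 = (a - (2 * N + 1)) % 16 + 1 then
        ee N g d (muu N g d) ((b - (2 * N + 1)) / 16) ((a - (2 * N + 1)) % 16) else
      -ee N g d (muu N g d) ((b - (2 * N + 1)) / 16) 14

theorem kH2 : S_KH2 := by
  intro N g hg M _ d
  refine ⟨mm N g d, ?_⟩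
  intro a b c hab hbc hs
  rcases Kp_cases hs with h | ⟨h, hh, i, hi, h1⟩
  · exfalso
    obtain ⟨x, y, hxy, _⟩ := Th_cases h
    have ha := hxy (show a ∈ ({a, b, c} : Finset ℕ) by simp)
    have hb := hxy (show b ∈ ({a, b, c} : Finset ℕ) by simp)
    have hc := hxy (show c ∈ ({a, b, c} : Finset ℕ) by simp)
    simp only [Finset.mem_insert, Finset.mem_singleton] at ha hb hc
    omega
  · have hni := nx14 hi
    have hne := P_ne g h hi
    have hlt1 := P_lt hg hh hi
    have hlt2 := P_lt hg hh hni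
    set μ := muu N g d with hμ
    have m1 : ∀ x y, y ≤ 2 * N → mm N g d x y = mth μ x y := fun x y hy => if_pos hy
    have m2 : ∀ x i, x ≤ 2 * N → i ≤ 14 → mm N g d x (2 * N + 1 + 16 * h + i) =
        if x = P g h i then 0 else qq N g d μ h i := by
      intro x i hx hi
      have e1 : (2 * N + 1 + 16 * h + i - (2 * N + 1)) / 16 = h := by omega
      have e2 : (2 * N + 1 + 16 * h + i - (2 * N + 1)) % 16 = i := by omega
      unfold mm
      rw [if_neg (by omega), if_pos hx, e1, e2]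
    have m3 : ∀ i, i ≤ 14 → mm N g d (2 * N + 1 + 16 * h + i) (2 * N + 1 + 16 * h + 15) =
        nn N g d μ h i := by
      intro i hi
      have e1 : (2 * N + 1 + 16 * h + 15 - (2 * N + 1)) / 16 = h := by omega
      have e2 : (2 * N + 1 + 16 * h + 15 - (2 * N + 1)) % 16 = 15 := by omega
      have e3 : (2 * N + 1 + 16 * h + i - (2 * N + 1)) % 16 = i := by omega
      unfold mm
      rw [if_neg (by omega), if_neg (by omega), e1, e2, e3, if_pos rfl]
    have m4 : ∀ i, i < 14 → mm N g d (2 * N + 1 + 16 * h + i) (2 * N + 1 + 16 * h + (i + 1)) =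
        ee N g d μ h i := by
      intro i hi
      have e1 : (2 * N + 1 + 16 * h + (i + 1) - (2 * N + 1)) / 16 = h := by omega
      have e2 : (2 * N + 1 + 16 * h + (i + 1) - (2 * N + 1)) % 16 = i + 1 := by omega
      have e3 : (2 * N + 1 + 16 * h + i - (2 * N + 1)) % 16 = i := by omega
      unfold mm
      rw [if_neg (by omega), if_neg (by omega), e1, e2, e3, if_neg (by omega), if_pos rfl]
    have m5 : mm N g d (2 * N + 1 + 16 * h + 0) (2 * N + 1 + 16 * h + 14) =
        -ee N g d μ h 14 := by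
      have e1 : (2 * N + 1 + 16 * h + 14 - (2 * N + 1)) / 16 = h := by omega
      have e2 : (2 * N + 1 + 16 * h + 14 - (2 * N + 1)) % 16 = 14 := by omega
      have e3 : (2 * N + 1 + 16 * h + 0 - (2 * N + 1)) % 16 = 0 := by omega
      unfold mm
      rw [if_neg (by omega), if_neg (by omega), e1, e2, e3, if_neg (by omega), if_neg (by omega)]
    have hcl := closing N g d h
    rw [← hμ] at hcl
    rcases h1 with h1 | h1 | h1
    · have ha := h1 (show a ∈ ({a, b, c} : Finset ℕ) by simp)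
      have hb := h1 (show b ∈ ({a, b, c} : Finset ℕ) by simp)
      have hc := h1 (show c ∈ ({a, b, c} : Finset ℕ) by simp)
      simp only [Finset.mem_insert, Finset.mem_singleton] at ha hb hc
      have hcy : c = 2 * N + 1 + 16 * h + i := by omega
      have hab' : (a = P g h i ∧ b = P g h (nx 14 i)) ∨ (a = P g h (nx 14 i) ∧ b = P g h i) := by
        omega
      subst hcy
      rcases hab' with ⟨rfl, rfl⟩ | ⟨rfl, rfl⟩
      · rw [m1 _ _ hlt2, m2 _ i hlt2 hi, if_neg hne.symm, m2 _ i hlt1 hi, if_pos rfl]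
        unfold qq Dd Mth
        rw [if_pos hab, if_pos hab]
        abel
      · rw [m1 _ _ hlt1, m2 _ i hlt2 hi, if_neg hne.symm, m2 _ i hlt1 hi, if_pos rfl]
        unfold qq Dd Mth
        rw [if_neg (by omega), if_neg (by omega)]
        abel
    · have ha := h1 (show a ∈ ({a, b, c} : Finset ℕ) by simp)
      have hb := h1 (show b ∈ ({a, b, c} : Finset ℕ) by simp)
      have hc := h1 (show c ∈ ({a, b, c} : Finset ℕ) by simp)
      simp only [Finset.mem_insert, Finset.mem_singleton] at ha hb hc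
      by_cases hi14 : i < 14
      · have hn : nx 14 i = i + 1 := if_pos hi14
        rw [hn] at ha hb hc hne hlt2 hni
        have ha' : a = P g h (i + 1) := by omega
        have hb' : b = 2 * N + 1 + 16 * h + i := by omega
        have hc' : c = 2 * N + 1 + 16 * h + (i + 1) := by omega
        subst ha' hb' hc'
        rw [m2 _ i hlt2 hi, if_neg hne.symm, m4 i hi14, m2 _ (i + 1) hlt2 hni, if_pos rfl]
        unfold ee ec qq
        rw [hn, if_pos hi14]
        abel
      · have hi' : i = 14 := by omega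
        subst hi'
        have hn : nx 14 14 = 0 := rfl
        rw [hn] at ha hb hc hne hlt2 hni
        have ha' : a = P g h 0 := by omega
        have hb' : b = 2 * N + 1 + 16 * h + 0 := by omega
        have hc' : c = 2 * N + 1 + 16 * h + 14 := by omega
        subst ha' hb' hc'
        rw [m2 _ 0 hlt2 (by omega), if_pos rfl, m5, m2 _ 14 hlt2 (by omega), if_neg hne.symm]
        unfold ee ec qq
        rw [hn, if_neg (by omega)]
        abel
    · have ha := h1 (show a ∈ ({a, b, c} : Finset ℕ) by simp)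
      have hb := h1 (show b ∈ ({a, b, c} : Finset ℕ) by simp)
      have hc := h1 (show c ∈ ({a, b, c} : Finset ℕ) by simp)
      simp only [Finset.mem_insert, Finset.mem_singleton] at ha hb hc
      by_cases hi14 : i < 14
      · have hn : nx 14 i = i + 1 := if_pos hi14
        rw [hn] at ha hb hc
        have ha' : a = 2 * N + 1 + 16 * h + i := by omega
        have hb' : b = 2 * N + 1 + 16 * h + (i + 1) := by omega
        have hc' : c = 2 * N + 1 + 16 * h + 15 := by omega
        subst ha' hb' hc'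
        rw [m4 i hi14, m3 i hi, m3 (i + 1) (by omega), nn]
        abel
      · have hi' : i = 14 := by omega
        subst hi'
        have hn : nx 14 14 = 0 := rfl
        rw [hn] at ha hb hc
        have ha' : a = 2 * N + 1 + 16 * h + 0 := by omega
        have hb' : b = 2 * N + 1 + 16 * h + 14 := by omega
        have hc' : c = 2 * N + 1 + 16 * h + 15 := by omega
        subst ha' hb' hc'
        rw [m5, m3 0 (by omega), m3 14 (by omega), ← hcl, nn]
        abel

end

end Pool.Agent.TH142.C3
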