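import Pool.Agent.TH716.C3.Stmts
import Pool.Agent.Helper281.Sc.Gc

set_option autoImplicit false

namespace Pool.Agent.TH142.C3

open Pool.Agent.TH716.C3 Pool.Agent.Helper281.Sc

section
variable {V : Type} [DecidableEq V]

omit [DecidableEq V] in
theorem isCx_union {P Q : Set (Finset V)} (hP : IsCx P) (hQ : IsCx Q) : IsCx (P ∪ Q) := by
  constructor
  · rintro (h | h)
    · exact hP.1 h
    · exact hQ.1 h
  · rintro s (h | h) t hts hn
    · exact Or.inl (hP.2 s h t hts hn)
    · exact Or.inr (hQ.2 s h t hts hn)

omit [DecidableEq V] in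
theorem isCx_inter {P Q : Set (Finset V)} (hP : IsCx P) (hQ : IsCx Q) : IsCx (P ∩ Q) :=
  ⟨fun h => hP.1 h.1, fun s hs t hts hn => ⟨hP.2 s hs.1 t hts hn, hQ.2 s hs.2 t hts hn⟩⟩

omit [DecidableEq V] in
/-- two pieces -/
theorem ctr_two {P Q : Set (Finset V)} (hP : IsCx P) (hQ : IsCx Q) (cP : Ctr P) (cQ : Ctr Q)
    (cI : Ctr (P ∩ Q)) : Ctr (P ∪ Q) := by
  refine ctr_union (ι := Unit) (X1 := P) (Y := fun _ => Q) (isCx_union hP hQ) hP (fun _ => hQ)
    ?_ ?_ (fun _ => cQ) (fun _ => cI) cP
  · intro s
    constructor
    · rintro (h | h)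
      · exact Or.inl h
      · exact Or.inr ⟨(), h⟩
    · rintro (h | ⟨_, h⟩)
      · exact Or.inl h
      · exact Or.inr h
  · intro i j hij
    exact absurd rfl hij

/-- adding an edge at a new vertex `u` -/
theorem addE {L : Set (Finset V)} (hL : IsCx L) (h : Ctr L) {u v : V} (hu : ∀ s ∈ L, u ∉ s)
    (hv : {v} ∈ L) : Ctr (L ∪ Cl {u, v}) := by
  refine ctr_two hL (isCx_Cl _) h (ctr_Cl ⟨u, by simp⟩) ?_
  have : L ∩ Cl {u, v} = Cl {v} := by
    ext s
    constructor
    · rintro ⟨h1, h2, hn⟩
      refine ⟨fun x hx => ?_, hn⟩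
      have h3 := h2 hx
      simp only [Finset.mem_insert, Finset.mem_singleton] at h3 ⊢
      rcases h3 with rfl | h3
      · exact absurd hx (hu s h1)
      · exact h3
    · rintro ⟨h1, hn⟩
      exact ⟨hL.2 _ hv s h1 hn, h1.trans (by simp), hn⟩
  rw [this]
  exact ctr_Cl ⟨v, by simp⟩

/-- adding a triangle at an edge, with a new vertex `u` -/
theorem add1 {L : Set (Finset V)} (hL : IsCx L) (h : Ctr L) {u v w : V} (hu : ∀ s ∈ L, u ∉ s)
    (hvw : {v, w} ∈ L) : Ctr (L ∪ Cl {u, v, w}) := by
  refine ctr_two hL (isCx_Cl _) h (ctr_Cl ⟨u, by simp⟩) ?_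
  have : L ∩ Cl {u, v, w} = Cl {v, w} := by
    ext s
    constructor
    · rintro ⟨h1, h2, hn⟩
      refine ⟨fun x hx => ?_, hn⟩
      have h3 := h2 hx
      rw [Finset.mem_insert] at h3
      rcases h3 with rfl | h3
      · exact absurd hx (hu s h1)
      · exact h3
    · rintro ⟨h1, hn⟩
      exact ⟨hL.2 _ hvw s h1 hn, h1.trans (Finset.subset_insert _ _), hn⟩
  rw [this]
  exact ctr_Cl ⟨v, by simp⟩

/-- adding a triangle at two edges -/
theorem add2 {L : Set (Finset V)} (hL : IsCx L) (h : Ctr L) {u v w : V}
    (huv : {u, v} ∈ L) (hvw : {v, w} ∈ L) (huw : ∀ s ∈ L, u ∈ s → w ∈ s → False) :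
    Ctr (L ∪ Cl {u, v, w}) := by
  refine ctr_two hL (isCx_Cl _) h (ctr_Cl ⟨u, by simp⟩) ?_
  refine ctr_cone (isCx_inter hL (isCx_Cl _)) v ?_ ?_
  · exact ⟨hL.2 _ huv _ (by simp) (by simp), by simp, by simp⟩
  · rintro s ⟨h1, h2, hn⟩
    refine ⟨?_, ?_, by simp⟩
    · by_cases hus : u ∈ s
      · refine hL.2 _ huv _ ?_ (by simp)
        intro x hx
        rw [Finset.mem_insert] at hx
        rcases hx with rfl | hx
        · simp
        · have h3 := h2 hx
          simp only [Finset.mem_insert, Finset.mem_singleton] at h3 ⊢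
          rcases h3 with h3 | h3 | rfl
          · exact Or.inl h3
          · exact Or.inr h3
          · exact (huw s h1 hus hx).elim
      · refine hL.2 _ hvw _ ?_ (by simp)
        intro x hx
        rw [Finset.mem_insert] at hx
        rcases hx with rfl | hx
        · simp
        · have h3 := h2 hx
          simp only [Finset.mem_insert, Finset.mem_singleton] at h3 ⊢
          rcases h3 with rfl | h3
          · exact absurd hx hus
          · exact h3
    · intro x hx
      rw [Finset.mem_insert] at hx
      rcases hx with rfl | hx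
      · simp
      · exact h2 hx

/-- The gadget attached to a contractible complex `A` which contains all edges of the walk except
those at `p 1`. -/
theorem ctr_att (A : Set (Finset V)) (hA : IsCx A) (cA : Ctr A) (l : ℕ) (hl : 3 ≤ l)
    (p y : ℕ → V) (z : V) (hyA : ∀ s ∈ A, ∀ i, y i ∉ s) (hzA : ∀ s ∈ A, z ∉ s)
    (hpA : ∀ s ∈ A, p 1 ∉ s) (hyy : ∀ i ≤ l, ∀ j ≤ l, y i = y j → i = j)
    (hyp : ∀ i j, y i ≠ p j) (hzp : ∀ j, z ≠ p j) (hyz : ∀ i ≤ l, y i ≠ z) (hp02 : p 0 ≠ p 2)
    (hE : ∀ i, 2 ≤ i → i ≤ l → {p i, p (nx l i)} ∈ A) : Ctr (A ∪ Gad l p y z) := by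
  have hnl : nx l l = 0 := if_neg (lt_irrefl l)
  have hnlt : ∀ i, i < l → nx l i = i + 1 := fun i hi => if_pos hi
  have hp1 : ∀ i, i ≤ l → i ≠ 1 → p i ≠ p 1 := by
    intro i hi h1 h2
    rcases Nat.lt_or_ge i 2 with h3 | h3
    · have : i = 0 := by omega
      subst this
      have := hE l (by omega) le_rfl
      rw [hnl, h2] at this
      exact hpA _ this (by simp)
    · have := hE i h3 hi
      rw [h2] at this
      exact hpA _ this (by simp)
  -- stage 1
  let F1 : Set (Finset V) := {s | s.Nonempty ∧ ∃ i, 2 ≤ i ∧ i ≤ l ∧ s ⊆ {p i, p (nx l i), y i}}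
  let F2 : Set (Finset V) := {s | s.Nonempty ∧ ∃ i, 2 ≤ i ∧ i < l ∧ s ⊆ {p (i + 1), y i, y (i + 1)}}
  let Q : Set (Finset V) := {s | s.Nonempty ∧ ∃ i, 1 ≤ i ∧ i ≤ l ∧ s ⊆ {y i, y (nx l i), z}}
  have cxF1 : IsCx F1 := by
    refine ⟨fun h => Finset.not_nonempty_empty h.1, ?_⟩
    rintro s ⟨_, i, hi, hi', h⟩ t hts hn
    exact ⟨hn, i, hi, hi', hts.trans h⟩
  have cxF2 : IsCx F2 := by
    refine ⟨fun h => Finset.not_nonempty_empty h.1, ?_⟩
    rintro s ⟨_, i, hi, hi', h⟩ t hts hn
    exact ⟨hn, i, hi, hi', hts.trans h⟩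
  have cxQ : IsCx Q := by
    refine ⟨fun h => Finset.not_nonempty_empty h.1, ?_⟩
    rintro s ⟨_, i, hi, hi', h⟩ t hts hn
    exact ⟨hn, i, hi, hi', hts.trans h⟩
  have cx1 : IsCx (A ∪ F1) := isCx_union hA cxF1
  have c1 : Ctr (A ∪ F1) := by
    refine ctr_union (ι := {i // 2 ≤ i ∧ i ≤ l}) (X1 := A)
      (Y := fun i => Cl {p i, p (nx l i), y i}) cx1 hA (fun _ => isCx_Cl _) ?_ ?_ ?_ ?_ cA
    · intro s
      constructor
      · rintro (h | ⟨hn, i, hi, hi', h⟩)
        · exact Or.inl h
        · exact Or.inr ⟨⟨i, hi, hi'⟩, h, hn⟩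
      · rintro (h | ⟨i, h, hn⟩)
        · exact Or.inl h
        · exact Or.inr ⟨hn, i.1, i.2.1, i.2.2, h⟩
    · rintro ⟨i, hi, hi'⟩ ⟨j, hj, hj'⟩ hij s ⟨⟨h1, hn⟩, h2, _⟩
      refine hA.2 _ (hE i hi hi') s ?_ hn
      intro x hx
      have e1 := h1 hx
      have e2 := h2 hx
      simp only [Finset.mem_insert, Finset.mem_singleton] at e1 e2 ⊢
      rcases e1 with e1 | e1 | e1
      · exact Or.inl e1
      · exact Or.inr e1
      · exfalso
        rcases e2 with e2 | e2 | e2
        · exact hyp i j (e1.symm.trans e2)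
        · exact hyp i _ (e1.symm.trans e2)
        · exact hij (Subtype.ext (hyy i hi' j hj' (e1.symm.trans e2)))
    · intro i
      exact ctr_Cl ⟨y i, by simp⟩
    · rintro ⟨i, hi, hi'⟩
      have : A ∩ Cl {p i, p (nx l i), y i} = Cl {p i, p (nx l i)} := by
        ext s
        constructor
        · rintro ⟨h1, h2, hn⟩
          refine ⟨fun x hx => ?_, hn⟩
          have e2 := h2 hx
          simp only [Finset.mem_insert, Finset.mem_singleton] at e2 ⊢
          rcases e2 with e2 | e2 | rfl
          · exact Or.inl e2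
          · exact Or.inr e2
          · exact absurd hx (hyA s h1 i)
        · rintro ⟨h, hn⟩
          refine ⟨hA.2 _ (hE i hi hi') s h hn, h.trans ?_, hn⟩
          intro x hx
          simp only [Finset.mem_insert, Finset.mem_singleton] at hx ⊢
          tauto
      show Ctr (A ∩ Cl {p i, p (nx l i), y i})
      rw [this]
      exact ctr_Cl ⟨p i, by simp⟩
  -- membership in F1
  have mF1 : ∀ i, 2 ≤ i → i ≤ l → ∀ s : Finset V, s.Nonempty → s ⊆ {p i, p (nx l i), y i} →
      s ∈ A ∪ F1 := fun i hi hi' s hn h => Or.inr ⟨hn, i, hi, hi', h⟩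
  have v1 : ∀ s ∈ A ∪ F1, ∀ i, i ≤ l → y i ∈ s → 2 ≤ i ∧ s ⊆ {p i, p (nx l i), y i} := by
    rintro s (h | ⟨hn, j, hj, hj', h⟩) i hi hs
    · exact absurd hs (hyA s h i)
    · have h1 := h hs
      simp only [Finset.mem_insert, Finset.mem_singleton] at h1
      rcases h1 with h1 | h1 | h1
      · exact absurd h1 (hyp _ _)
      · exact absurd h1 (hyp _ _)
      · have := hyy i hi j hj' h1
        subst this
        exact ⟨hj, h⟩
  have cx2 : IsCx (A ∪ F1 ∪ F2) := isCx_union cx1 cxF2
  have c2 : Ctr (A ∪ F1 ∪ F2) := by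
    refine ctr_union (ι := {i // 2 ≤ i ∧ i < l}) (X1 := A ∪ F1)
      (Y := fun i => Cl {p (i + 1), y i, y (i + 1)}) cx2 cx1 (fun _ => isCx_Cl _) ?_ ?_ ?_ ?_ c1
    · intro s
      constructor
      · rintro (h | ⟨hn, i, hi, hi', h⟩)
        · exact Or.inl h
        · exact Or.inr ⟨⟨i, hi, hi'⟩, h, hn⟩
      · rintro (h | ⟨i, h, hn⟩)
        · exact Or.inl h
        · exact Or.inr ⟨hn, i.1, i.2.1, i.2.2, h⟩
    · rintro ⟨i, hi, hi'⟩ ⟨j, hj, hj'⟩ hij s ⟨⟨h1, hn⟩, h2, _⟩
      have hij' : i ≠ j := fun h => hij (Subtype.ext h)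
      -- `s` contains at most one of `y i`, `y (i + 1)`
      by_cases ha : y i ∈ s
      · have e2 := h2 ha
        simp only [Finset.mem_insert, Finset.mem_singleton] at e2
        have hji : i = j + 1 := by
          rcases e2 with e2 | e2 | e2
          · exact absurd e2 (hyp _ _)
          · exact absurd (hyy i (by omega) j (by omega) e2) hij'
          · exact hyy i (by omega) (j + 1) (by omega) e2
        refine mF1 i hi hi'.le s hn ?_
        intro x hx
        have e3 := h1 hx
        have e4 := h2 hx
        simp only [Finset.mem_insert, Finset.mem_singleton] at e3 e4 ⊢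
        rw [hnlt i hi']
        rcases e3 with e3 | e3 | e3
        · exact Or.inr (Or.inl e3)
        · exact Or.inr (Or.inr e3)
        · exfalso
          rcases e4 with e4 | e4 | e4
          · exact hyp _ _ (e3.symm.trans e4)
          · have := hyy _ (by omega) _ (by omega) (e3.symm.trans e4)
            omega
          · have := hyy _ (by omega) _ (by omega) (e3.symm.trans e4)
            omega
      · refine mF1 (i + 1) (by omega) (by omega) s hn ?_
        intro x hx
        have e3 := h1 hx
        simp only [Finset.mem_insert, Finset.mem_singleton] at e3 ⊢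
        rcases e3 with e3 | e3 | e3
        · exact Or.inl e3
        · exact absurd (e3 ▸ hx) ha
        · exact Or.inr (Or.inr e3)
    · intro i
      exact ctr_Cl ⟨y i, by simp⟩
    · rintro ⟨i, hi, hi'⟩
      show Ctr ((A ∪ F1) ∩ Cl {p (i + 1), y i, y (i + 1)})
      have m1 : ({y i, p (i + 1)} : Finset V) ∈ A ∪ F1 := by
        refine mF1 i hi hi'.le _ (by simp) ?_
        rw [hnlt i hi']
        intro x hx
        simp only [Finset.mem_insert, Finset.mem_singleton] at hx ⊢
        tauto
      have m2 : ({p (i + 1), y (i + 1)} : Finset V) ∈ A ∪ F1 := by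
        refine mF1 (i + 1) (by omega) (by omega) _ (by simp) ?_
        intro x hx
        simp only [Finset.mem_insert, Finset.mem_singleton] at hx ⊢
        tauto
      refine ctr_cone (isCx_inter cx1 (isCx_Cl _)) (p (i + 1)) ?_ ?_
      · exact ⟨cx1.2 _ m1 _ (by simp) (by simp), by simp, by simp⟩
      · rintro s ⟨h1, h2, hn⟩
        refine ⟨?_, ?_, by simp⟩
        · by_cases hus : y i ∈ s
          · refine cx1.2 _ m1 _ ?_ (by simp)
            have h4 := (v1 s h1 i hi'.le hus).2
            intro x hx
            rw [Finset.mem_insert] at hx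
            rcases hx with rfl | hx
            · simp
            · have h3 := h2 hx
              have h5 := h4 hx
              simp only [Finset.mem_insert, Finset.mem_singleton] at h3 h5 ⊢
              rcases h3 with h3 | h3 | h3
              · exact Or.inr h3
              · exact Or.inl h3
              · exfalso
                rcases h5 with h5 | h5 | h5
                · exact hyp _ _ (h3.symm.trans h5)
                · exact hyp _ _ (h3.symm.trans h5)
                · have := hyy _ (by omega) _ (by omega) (h3.symm.trans h5)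
                  omega
          · refine cx1.2 _ m2 _ ?_ (by simp)
            intro x hx
            rw [Finset.mem_insert] at hx
            rcases hx with rfl | hx
            · simp
            · have h3 := h2 hx
              simp only [Finset.mem_insert, Finset.mem_singleton] at h3 ⊢
              rcases h3 with h3 | h3 | h3
              · exact Or.inl h3
              · exact absurd (h3 ▸ hx) hus
              · exact Or.inr h3
        · intro x hx
          rw [Finset.mem_insert] at hx
          rcases hx with rfl | hx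
          · simp
          · exact h2 hx
  -- vertices of stage 2
  have n2 : ∀ s ∈ A ∪ F1 ∪ F2, y 0 ∉ s ∧ y 1 ∉ s ∧ z ∉ s ∧ p 1 ∉ s := by
    rintro s ((h | ⟨hn, i, hi, hi', h⟩) | ⟨hn, i, hi, hi', h⟩)
    · exact ⟨hyA s h 0, hyA s h 1, hzA s h, hpA s h⟩
    · refine ⟨fun hx => ?_, fun hx => ?_, fun hx => ?_, fun hx => ?_⟩
      all_goals
        have h1 := h hx
        simp only [Finset.mem_insert, Finset.mem_singleton] at h1
      · rcases h1 with h1 | h1 | h1
        · exact hyp _ _ h1
        · exact hyp _ _ h1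
        · have := hyy _ (by omega) _ (by omega) h1
          omega
      · rcases h1 with h1 | h1 | h1
        · exact hyp _ _ h1
        · exact hyp _ _ h1
        · have := hyy _ (by omega) _ (by omega) h1
          omega
      · rcases h1 with h1 | h1 | h1
        · exact hzp _ h1
        · exact hzp _ h1
        · exact hyz _ (by omega) h1.symm
      · rcases h1 with h1 | h1 | h1
        · exact hp1 i hi' (by omega) h1.symm
        · refine hp1 (nx l i) (nx_le hi') ?_ h1.symm
          unfold nx
          split_ifs <;> omega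
        · exact hyp _ _ h1.symm
    · refine ⟨fun hx => ?_, fun hx => ?_, fun hx => ?_, fun hx => ?_⟩
      all_goals
        have h1 := h hx
        simp only [Finset.mem_insert, Finset.mem_singleton] at h1
      · rcases h1 with h1 | h1 | h1
        · exact hyp _ _ h1
        · have := hyy _ (by omega) _ (by omega) h1
          omega
        · have := hyy _ (by omega) _ (by omega) h1
          omega
      · rcases h1 with h1 | h1 | h1
        · exact hyp _ _ h1
        · have := hyy _ (by omega) _ (by omega) h1
          omega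
        · have := hyy _ (by omega) _ (by omega) h1
          omega
      · rcases h1 with h1 | h1 | h1
        · exact hzp _ h1
        · exact hyz _ (by omega) h1.symm
        · exact hyz _ (by omega) h1.symm
      · rcases h1 with h1 | h1 | h1
        · exact hp1 (i + 1) (by omega) (by omega) h1.symm
        · exact hyp _ _ h1.symm
        · exact hyp _ _ h1.symm
  set B2 : Set (Finset V) := A ∪ F1 ∪ F2 with hB2
  -- stage 3
  have e3 : ({p 0, y l} : Finset V) ∈ B2 := by
    refine Or.inl (mF1 l (by omega) le_rfl _ (by simp) ?_)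
    rw [hnl]
    intro x hx
    simp only [Finset.mem_insert, Finset.mem_singleton] at hx ⊢
    tauto
  have c3 := add1 cx2 c2 (u := y 0) (fun s hs => (n2 s hs).1) e3
  have cx3 := isCx_union cx2 (isCx_Cl {y 0, p 0, y l})
  set B3 : Set (Finset V) := B2 ∪ Cl {y 0, p 0, y l} with hB3
  -- stage 4
  have e4 : ({p 2, y 2} : Finset V) ∈ B3 := by
    refine Or.inl (Or.inl (mF1 2 le_rfl (by omega) _ (by simp) ?_))
    intro x hx
    simp only [Finset.mem_insert, Finset.mem_singleton] at hx ⊢
    tauto
  have n3 : ∀ s ∈ B3, y 1 ∉ s := by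
    rintro s (h | ⟨h, hn⟩) hx
    · exact (n2 s h).2.1 hx
    · have h1 := h hx
      simp only [Finset.mem_insert, Finset.mem_singleton] at h1
      rcases h1 with h1 | h1 | h1
      · have := hyy _ (by omega) _ (by omega) h1
        omega
      · exact hyp _ _ h1
      · have := hyy _ (by omega) _ (by omega) h1
        omega
  have c4 := add1 cx3 c3 (u := y 1) n3 e4
  have cx4 := isCx_union cx3 (isCx_Cl {y 1, p 2, y 2})
  set B4 : Set (Finset V) := B3 ∪ Cl {y 1, p 2, y 2} with hB4
  have n4 : ∀ s ∈ B4, z ∉ s ∧ p 1 ∉ s ∧ (y 0 ∈ s → y 1 ∉ s) := by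
    rintro s ((h | ⟨h, hn⟩) | ⟨h, hn⟩)
    · exact ⟨(n2 s h).2.2.1, (n2 s h).2.2.2, fun hx => absurd hx (n2 s h).1⟩
    · refine ⟨fun hx => ?_, fun hx => ?_, fun _ hx => ?_⟩
      all_goals
        have h1 := h hx
        simp only [Finset.mem_insert, Finset.mem_singleton] at h1
      · rcases h1 with h1 | h1 | h1
        · exact hyz _ (by omega) h1.symm
        · exact hzp _ h1
        · exact hyz _ (by omega) h1.symm
      · rcases h1 with h1 | h1 | h1
        · exact hyp _ _ h1.symm
        · exact hp1 0 (by omega) (by omega) h1.symm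
        · exact hyp _ _ h1.symm
      · rcases h1 with h1 | h1 | h1
        · have := hyy _ (by omega) _ (by omega) h1
          omega
        · exact hyp _ _ h1
        · have := hyy _ (by omega) _ (by omega) h1
          omega
    · refine ⟨fun hx => ?_, fun hx => ?_, fun hx _ => ?_⟩
      all_goals
        have h1 := h hx
        simp only [Finset.mem_insert, Finset.mem_singleton] at h1
      · rcases h1 with h1 | h1 | h1
        · exact hyz _ (by omega) h1.symm
        · exact hzp _ h1
        · exact hyz _ (by omega) h1.symm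
      · rcases h1 with h1 | h1 | h1
        · exact hyp _ _ h1.symm
        · exact hp1 2 (by omega) (by omega) h1.symm
        · exact hyp _ _ h1.symm
      · rcases h1 with h1 | h1 | h1
        · have := hyy _ (by omega) _ (by omega) h1
          omega
        · exact hyp _ _ h1
        · have := hyy _ (by omega) _ (by omega) h1
          omega
  -- stage 5: the cone
  have cQ : Ctr Q := by
    refine ctr_cone cxQ z ?_ ?_
    · exact ⟨⟨z, by simp⟩, 1, le_rfl, by omega, by simp⟩
    · rintro s ⟨_, i, hi, hi', h⟩
      refine ⟨⟨z, by simp⟩, i, hi, hi', ?_⟩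
      rw [Finset.insert_subset_iff]
      exact ⟨by simp, h⟩
  have cI : Ctr (B4 ∩ Q) := by
    have hq : B4 ∩ Q = Pth l (fun k => y (nx l k)) := by
      ext s
      constructor
      · rintro ⟨h1, hn, i, hi, hi', h2⟩
        refine ⟨hn, i - 1, by omega, ?_⟩
        have e1 : nx l (i - 1) = i := by rw [hnlt _ (by omega)]; omega
        have e2 : i - 1 + 1 = i := by omega
        simp only [e1, e2]
        intro x hx
        have h3 := h2 hx
        simp only [Finset.mem_insert, Finset.mem_singleton] at h3 ⊢
        rcases h3 with h3 | h3 | rfl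
        · exact Or.inl h3
        · exact Or.inr h3
        · exact absurd hx (n4 s h1).1
      · rintro ⟨hn, k, hk, h⟩
        simp only [hnlt k hk] at h
        refine ⟨?_, hn, k + 1, by omega, by omega, ?_⟩
        · rcases Nat.lt_trichotomy (k + 1) l with h1 | h1 | h1
          · rw [hnlt _ h1] at h
            rcases Nat.eq_zero_or_pos k with rfl | h2
            · refine Or.inr ⟨h.trans ?_, hn⟩
              intro x hx
              simp only [Finset.mem_insert, Finset.mem_singleton] at hx ⊢
              tauto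
            · refine Or.inl (Or.inl (Or.inr ⟨hn, k + 1, by omega, h1, h.trans ?_⟩))
              intro x hx
              simp only [Finset.mem_insert, Finset.mem_singleton] at hx ⊢
              tauto
          · rw [h1, hnl] at h
            refine Or.inl (Or.inr ⟨h.trans ?_, hn⟩)
            intro x hx
            simp only [Finset.mem_insert, Finset.mem_singleton] at hx ⊢
            tauto
          · omega
        · refine h.trans ?_
          intro x hx
          simp only [Finset.mem_insert, Finset.mem_singleton] at hx ⊢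
          tauto
    rw [hq]
    refine ctr_Pth l (by omega) _ ?_
    intro i hi j hj hij
    exact nx_inj hi hj (hyy _ (nx_le hi) _ (nx_le hj) hij)
  have c5 := ctr_two cx4 cxQ c4 cQ cI
  have cx5 := isCx_union cx4 cxQ
  set B5 : Set (Finset V) := B4 ∪ Q with hB5
  have n5 : ∀ s ∈ B5, p 1 ∉ s ∧ (y 0 ∈ s → y 1 ∈ s → False) := by
    rintro s (h | ⟨hn, i, hi, hi', h⟩)
    · exact ⟨(n4 s h).2.1, (n4 s h).2.2⟩
    · refine ⟨fun hx => ?_, fun hx hx' => ?_⟩
      · have h1 := h hx
        simp only [Finset.mem_insert, Finset.mem_singleton] at h1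
        rcases h1 with h1 | h1 | h1
        · exact hyp _ _ h1.symm
        · exact hyp _ _ h1.symm
        · exact hzp _ h1.symm
      · have h1 := h hx
        have h2 := h hx'
        have hnl' := nx_le hi'
        simp only [Finset.mem_insert, Finset.mem_singleton] at h1 h2
        have h3 : nx l i = 0 := by
          rcases h1 with h1 | h1 | h1
          · have := hyy _ (by omega) _ (by omega) h1
            omega
          · exact (hyy _ (by omega) _ hnl' h1).symm
          · exact absurd h1 (hyz _ (by omega))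
        have h4 : i = l := by
          by_contra hne
          rw [hnlt i (by omega)] at h3
          omega
        rcases h2 with h2 | h2 | h2
        · have := hyy _ (by omega) _ (by omega) h2
          omega
        · have := hyy _ (by omega) _ hnl' h2
          omega
        · exact hyz _ (by omega) h2
  -- stage 6
  have e6a : ({y 0, z} : Finset V) ∈ B5 := by
    refine Or.inr ⟨by simp, l, by omega, le_rfl, ?_⟩
    rw [hnl]
    intro x hx
    simp only [Finset.mem_insert, Finset.mem_singleton] at hx ⊢
    tauto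
  have e6b : ({z, y 1} : Finset V) ∈ B5 := by
    refine Or.inr ⟨by simp, 1, by omega, by omega, ?_⟩
    intro x hx
    simp only [Finset.mem_insert, Finset.mem_singleton] at hx ⊢
    tauto
  have c6 := add2 cx5 c5 e6a e6b (fun s hs => (n5 s hs).2)
  have cx6 := isCx_union cx5 (isCx_Cl {y 0, z, y 1})
  set B6 : Set (Finset V) := B5 ∪ Cl {y 0, z, y 1} with hB6
  have n6 : ∀ s ∈ B6, p 1 ∉ s := by
    rintro s (h | ⟨h, hn⟩) hx
    · exact (n5 s h).1 hx
    · have h1 := h hx
      simp only [Finset.mem_insert, Finset.mem_singleton] at h1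
      rcases h1 with h1 | h1 | h1
      · exact hyp _ _ h1.symm
      · exact hzp _ h1.symm
      · exact hyp _ _ h1.symm
  -- stage 7
  have e7 : ({y 0, y 1} : Finset V) ∈ B6 := by
    refine Or.inr ⟨?_, by simp⟩
    intro x hx
    simp only [Finset.mem_insert, Finset.mem_singleton] at hx ⊢
    tauto
  have c7 := add1 cx6 c6 (u := p 1) n6 e7
  have cx7 := isCx_union cx6 (isCx_Cl {p 1, y 0, y 1})
  set B7 : Set (Finset V) := B6 ∪ Cl {p 1, y 0, y 1} with hB7
  -- stage 8
  have e8a : ({p 0, y 0} : Finset V) ∈ B7 := by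
    refine Or.inl (Or.inl (Or.inl (Or.inl (Or.inr ⟨?_, by simp⟩))))
    intro x hx
    simp only [Finset.mem_insert, Finset.mem_singleton] at hx ⊢
    tauto
  have e8b : ({y 0, p 1} : Finset V) ∈ B7 := by
    refine Or.inr ⟨?_, by simp⟩
    intro x hx
    simp only [Finset.mem_insert, Finset.mem_singleton] at hx ⊢
    tauto
  have n8 : ∀ s ∈ B7, p 0 ∈ s → p 1 ∈ s → False := by
    rintro s (h | ⟨h, hn⟩) hx hx'
    · exact n6 s h hx'
    · have h1 := h hx
      simp only [Finset.mem_insert, Finset.mem_singleton] at h1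
      rcases h1 with h1 | h1 | h1
      · exact hp1 0 (by omega) (by omega) h1
      · exact hyp _ _ h1.symm
      · exact hyp _ _ h1.symm
  have c8 := add2 cx7 c7 e8a e8b n8
  have cx8 := isCx_union cx7 (isCx_Cl {p 0, y 0, p 1})
  set B8 : Set (Finset V) := B7 ∪ Cl {p 0, y 0, p 1} with hB8
  -- stage 9
  have e9a : ({p 1, y 1} : Finset V) ∈ B8 := by
    refine Or.inl (Or.inr ⟨?_, by simp⟩)
    intro x hx
    simp only [Finset.mem_insert, Finset.mem_singleton] at hx ⊢
    tauto
  have e9b : ({y 1, p 2} : Finset V) ∈ B8 := by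
    refine Or.inl (Or.inl (Or.inl (Or.inl (Or.inr ⟨?_, by simp⟩))))
    intro x hx
    simp only [Finset.mem_insert, Finset.mem_singleton] at hx ⊢
    tauto
  have n9 : ∀ s ∈ B8, p 1 ∈ s → p 2 ∈ s → False := by
    rintro s ((h | ⟨h, hn⟩) | ⟨h, hn⟩) hx hx'
    · exact n6 s h hx
    · have h1 := h hx'
      simp only [Finset.mem_insert, Finset.mem_singleton] at h1
      rcases h1 with h1 | h1 | h1
      · exact hp1 2 (by omega) (by omega) h1
      · exact hyp _ _ h1.symm
      · exact hyp _ _ h1.symm
    · have h1 := h hx'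
      simp only [Finset.mem_insert, Finset.mem_singleton] at h1
      rcases h1 with h1 | h1 | h1
      · exact hp02 h1.symm
      · exact hyp _ _ h1.symm
      · exact hp1 2 (by omega) (by omega) h1
  have c9 := add2 cx8 c8 e9a e9b n9
  -- the union
  have hfin : A ∪ Gad l p y z = B8 ∪ Cl {p 1, y 1, p 2} := by
    have h01 : nx l 0 = 1 := hnlt 0 (by omega)
    have h12 : nx l 1 = 2 := hnlt 1 (by omega)
    ext s
    constructor
    · rintro (h | ⟨hn, i, hi, h⟩)
      · exact Or.inl (Or.inl (Or.inl (Or.inl (Or.inl (Or.inl (Or.inl (Or.inl (Or.inl h))))))))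
      · rcases h with h | h | h
        · rcases Nat.lt_or_ge i 2 with h2 | h2
          · interval_cases i
            · refine Or.inl (Or.inr ⟨h.trans ?_, hn⟩)
              rw [h01]
              intro x hx
              simp only [Finset.mem_insert, Finset.mem_singleton] at hx ⊢
              tauto
            · refine Or.inr ⟨h.trans ?_, hn⟩
              rw [h12]
              intro x hx
              simp only [Finset.mem_insert, Finset.mem_singleton] at hx ⊢
              tauto
          · exact Or.inl (Or.inl (Or.inl (Or.inl (Or.inl (Or.inl (Or.inl (Or.inl (Or.inr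
              ⟨hn, i, h2, hi, h⟩))))))))
        · rcases Nat.lt_or_ge i 2 with h2 | h2
          · interval_cases i
            · refine Or.inl (Or.inl (Or.inr ⟨h.trans ?_, hn⟩))
              rw [h01]
            · refine Or.inl (Or.inl (Or.inl (Or.inl (Or.inl (Or.inr ⟨h.trans ?_, hn⟩)))))
              rw [h12]
              intro x hx
              simp only [Finset.mem_insert, Finset.mem_singleton] at hx ⊢
              tauto
          · rcases Nat.lt_or_ge i l with h3 | h3
            · rw [hnlt i h3] at h
              exact Or.inl (Or.inl (Or.inl (Or.inl (Or.inl (Or.inl (Or.inl (Or.inr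
                ⟨hn, i, h2, h3, h⟩)))))))
            · have : i = l := by omega
              subst this
              rw [hnl] at h
              refine Or.inl (Or.inl (Or.inl (Or.inl (Or.inl (Or.inl (Or.inr ⟨h.trans ?_, hn⟩))))))
              intro x hx
              simp only [Finset.mem_insert, Finset.mem_singleton] at hx ⊢
              tauto
        · rcases Nat.eq_zero_or_pos i with rfl | h2
          · refine Or.inl (Or.inl (Or.inl (Or.inr ⟨h.trans ?_, hn⟩)))
            rw [h01]
            intro x hx
            simp only [Finset.mem_insert, Finset.mem_singleton] at hx ⊢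
            tauto
          · exact Or.inl (Or.inl (Or.inl (Or.inl (Or.inr ⟨hn, i, h2, hi, h⟩))))
    · have t0 := nx_le (l := l) (i := 0) (by omega)
      rintro (((((((((h | ⟨hn, i, hi, hi', h⟩) | ⟨hn, i, hi, hi', h⟩) | ⟨h, hn⟩) | ⟨h, hn⟩) |
        ⟨hn, i, hi, hi', h⟩) | ⟨h, hn⟩) | ⟨h, hn⟩) | ⟨h, hn⟩) | ⟨h, hn⟩)
      · exact Or.inl h
      · exact Or.inr ⟨hn, i, hi', Or.inl h⟩
      · refine Or.inr ⟨hn, i, by omega, Or.inr (Or.inl ?_)⟩
        rw [hnlt i hi']
        exact h
      · refine Or.inr ⟨hn, l, le_rfl, Or.inr (Or.inl ?_)⟩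
        rw [hnl]
        refine h.trans ?_
        intro x hx
        simp only [Finset.mem_insert, Finset.mem_singleton] at hx ⊢
        tauto
      · refine Or.inr ⟨hn, 1, by omega, Or.inr (Or.inl ?_)⟩
        rw [h12]
        refine h.trans ?_
        intro x hx
        simp only [Finset.mem_insert, Finset.mem_singleton] at hx ⊢
        tauto
      · exact Or.inr ⟨hn, i, hi', Or.inr (Or.inr h)⟩
      · refine Or.inr ⟨hn, 0, by omega, Or.inr (Or.inr ?_)⟩
        rw [h01]
        refine h.trans ?_
        intro x hx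
        simp only [Finset.mem_insert, Finset.mem_singleton] at hx ⊢
        tauto
      · refine Or.inr ⟨hn, 0, by omega, Or.inr (Or.inl ?_)⟩
        rw [h01]
        exact h
      · refine Or.inr ⟨hn, 0, by omega, Or.inl ?_⟩
        rw [h01]
        refine h.trans ?_
        intro x hx
        simp only [Finset.mem_insert, Finset.mem_singleton] at hx ⊢
        tauto
      · refine Or.inr ⟨hn, 1, by omega, Or.inl ?_⟩
        rw [h12]
        refine h.trans ?_
        intro x hx
        simp only [Finset.mem_insert, Finset.mem_singleton] at hx ⊢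
        tauto
  rw [hfin]
  exact c9

end

end Pool.Agent.TH142.C3
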