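import Pool.Agent.TH142.C3.D

set_option autoImplicit false

namespace Pool.Agent.TH142.C3

open Pool.Agent.TH716.C3 Pool.Agent.Helper281.Sc

/-! ### the walk of a word -/

theorem zero_Th (N : ℕ) : ({0, 0} : Finset ℕ) ∈ Th N := ⟨by simp, Or.inl (by simp)⟩

theorem wv_edge {N : ℕ} (r : List (ℕ × Bool)) (hr : ∀ x ∈ r, x.1 < N) (k : ℕ) :
    ({wv r k, wv r (k + 1)} : Finset ℕ) ∈ Th N := by
  have hk : k = 3 * (k / 3) + k % 3 := (Nat.div_add_mod k 3).symm
  have hm : k % 3 < 3 := Nat.mod_lt _ (by norm_num)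
  rcases hq : r[k / 3]? with _ | ⟨x, b⟩
  · have h1 : wv r k = 0 := by unfold wv; rw [hq]
    have h2 : wv r (k + 1) = 0 := by
      have : r[(k + 1) / 3]? = none := by
        rw [List.getElem?_eq_none_iff] at hq ⊢
        omega
      unfold wv
      rw [this]
    rw [h1, h2]
    exact zero_Th N
  · have hx : x < N := hr (x, b) (List.mem_of_getElem? hq)
    by_cases h2 : k % 3 = 2
    · have e1 : wv r (k + 1) = 0 := by
        have h3 : (k + 1) % 3 = 0 := by omega
        unfold wv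
        rcases r[(k + 1) / 3]? with _ | ⟨x', b'⟩
        · rfl
        · simp only [h3, if_true]
      have e2 : wv r k = if b = false then 2 * x + 1 else 2 * x + 2 := by
        unfold wv
        rw [hq]
        simp only [h2]
        cases b <;> simp
      rw [e1, e2]
      refine ⟨by simp, Or.inr ⟨x, hx, ?_⟩⟩
      cases b
      · left
        simp only [if_true]
        rw [Finset.pair_comm]
      · right; right
        simp only [Bool.true_eq_false, if_false]
        rw [Finset.pair_comm]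
    · have hq' : r[(k + 1) / 3]? = some (x, b) := by
        have : (k + 1) / 3 = k / 3 := by omega
        rw [this, hq]
      by_cases h0 : k % 3 = 0
      · have e2 : wv r k = 0 := by
          unfold wv
          rw [hq]
          simp only [h0, if_true]
        have e1 : wv r (k + 1) = if b = true then 2 * x + 1 else 2 * x + 2 := by
          have h3 : (k + 1) % 3 = 1 := by omega
          unfold wv
          rw [hq']
          simp only [h3]
          cases b <;> simp
        rw [e1, e2]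
        refine ⟨by simp, Or.inr ⟨x, hx, ?_⟩⟩
        cases b
        · right; right
          simp
        · left
          simp
      · have h1 : k % 3 = 1 := by omega
        have e1 : wv r k = if b = true then 2 * x + 1 else 2 * x + 2 := by
          unfold wv
          rw [hq]
          simp only [h1]
          cases b <;> simp
        have e2 : wv r (k + 1) = if b = false then 2 * x + 1 else 2 * x + 2 := by
          have h3 : (k + 1) % 3 = 2 := by omega
          unfold wv
          rw [hq']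
          simp only [h3]
          cases b <;> simp
        rw [e1, e2]
        refine ⟨by simp, Or.inr ⟨x, hx, Or.inr (Or.inl ?_)⟩⟩
        cases b
        · simp only [Bool.false_eq_true, if_false, if_true]
          rw [Finset.pair_comm]
        · simp

theorem wv_zero (r : List (ℕ × Bool)) : wv r 0 = 0 := by
  unfold wv
  rcases r[0 / 3]? with _ | ⟨x, b⟩
  · rfl
  · simp

theorem wv_end (r : List (ℕ × Bool)) : wv r (3 * r.length) = 0 := by
  unfold wv
  have : r[3 * r.length / 3]? = none := by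
    rw [List.getElem?_eq_none_iff]
    omega
  rw [this]

/-! ### the cone -/

section
variable {K : Set (Finset ℕ)} {c : ℕ}

theorem isCx_Cn (hK : IsCx K) : IsCx (Cn K c) := by
  refine ⟨fun h => Finset.not_nonempty_empty h.1, ?_⟩
  rintro s ⟨_, h⟩ t hts hn
  refine ⟨hn, ?_⟩
  by_cases he : t.erase c = ∅
  · exact Or.inl he
  · right
    have hsub : t.erase c ⊆ s.erase c := Finset.erase_subset_erase c hts
    rcases h with h | h
    · exfalso
      apply he
      rw [h] at hsub
      exact Finset.subset_empty.mp hsub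
    · exact hK.2 _ h _ hsub (Finset.nonempty_iff_ne_empty.mpr he)

theorem Cn_le (hc : ∀ s ∈ K, ∀ v ∈ s, v < c) {s : Finset ℕ} (hs : s ∈ Cn K c) {v : ℕ}
    (hv : v ∈ s) : v ≤ c := by
  by_cases h : v = c
  · omega
  · have h1 : v ∈ s.erase c := Finset.mem_erase.mpr ⟨h, hv⟩
    rcases hs.2 with h2 | h2
    · rw [h2] at h1
      simp at h1
    · exact (hc _ h2 v h1).le

theorem Cn_apex {s : Finset ℕ} (hs : s ∈ Cn K c) : insert c s ∈ Cn K c := by
  refine ⟨by simp, ?_⟩
  have : (insert c s).erase c = s.erase c := by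
    ext x
    simp only [Finset.mem_erase, Finset.mem_insert]
    tauto
  rw [this]
  exact hs.2

theorem Cn_c : {c} ∈ Cn K c := ⟨by simp, Or.inl (by simp)⟩

theorem K_sub_Cn (hc : ∀ s ∈ K, ∀ v ∈ s, v < c) (hK : IsCx K) : K ⊆ Cn K c := by
  intro s hs
  refine ⟨?_, Or.inr ?_⟩
  · rw [Finset.nonempty_iff_ne_empty]
    rintro rfl
    exact hK.1 hs
  · have : c ∉ s := fun h => lt_irrefl _ (hc s hs c h)
    rw [Finset.erase_eq_of_notMem this]
    exact hs

end

/-! ### the prisms -/

/-- simplices of the product -/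
def GG (CK : Set (Finset ℕ)) (t : Finset (ℕ × ℕ)) : Prop :=
  t.image Prod.fst ∈ CK ∧ ∀ x ∈ t, ∀ y ∈ t, x ≤ y ∨ y ≤ x

/-- the part over the levels `E` -/
def PE (CK : Set (Finset ℕ)) (E : Finset ℕ) : Set (Finset ((ℕ × ℕ) ⊕ (ℕ × ℕ))) :=
  {s | ∃ t, GG CK t ∧ t.image Prod.snd ⊆ E ∧ s = t.image Sum.inl}

section
variable {CK : Set (Finset ℕ)}

theorem GG_ne (hCK : IsCx CK) {t : Finset (ℕ × ℕ)} (h : GG CK t) : t.Nonempty := by
  rw [Finset.nonempty_iff_ne_empty]
  rintro rfl
  apply hCK.1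
  have := h.1
  simpa using this

theorem GG_sub (hCK : IsCx CK) {t r : Finset (ℕ × ℕ)} (h : GG CK t) (hr : r ⊆ t)
    (hn : r.Nonempty) : GG CK r :=
  ⟨hCK.2 _ h.1 _ (Finset.image_subset_image hr) (hn.image _),
    fun x hx y hy => h.2 x (hr hx) y (hr hy)⟩

theorem sub_image {s : Finset ((ℕ × ℕ) ⊕ (ℕ × ℕ))} {t : Finset (ℕ × ℕ)}
    (h : s ⊆ t.image Sum.inl) : ∃ r ⊆ t, s = r.image Sum.inl := by
  refine ⟨t.filter (fun x => Sum.inl x ∈ s), Finset.filter_subset _ _, ?_⟩
  ext x
  simp only [Finset.mem_image, Finset.mem_filter]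
  constructor
  · intro hx
    obtain ⟨v, hv, rfl⟩ := Finset.mem_image.1 (h hx)
    exact ⟨v, ⟨hv, hx⟩, rfl⟩
  · rintro ⟨v, ⟨_, hv⟩, rfl⟩
    exact hv

theorem isCx_PE (hCK : IsCx CK) (E : Finset ℕ) : IsCx (PE CK E) := by
  constructor
  · rintro ⟨t, h1, h2, h3⟩
    have := GG_ne hCK h1
    rw [Finset.image_eq_empty.mp h3.symm] at this
    exact Finset.not_nonempty_empty this
  · rintro s ⟨t, h1, h2, rfl⟩ s' hs' hn
    obtain ⟨r, hr, rfl⟩ := sub_image hs'
    have hrn : r.Nonempty := Finset.image_nonempty.mp hn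
    exact ⟨r, GG_sub hCK h1 hr hrn, (Finset.image_subset_image hr).trans h2, rfl⟩

theorem PE_mono {E E' : Finset ℕ} (h : E ⊆ E') : PE CK E ⊆ PE CK E' := by
  rintro s ⟨t, h1, h2, h3⟩
  exact ⟨t, h1, h2.trans h, h3⟩

theorem PE_inter {E E' : Finset ℕ} {s : Finset ((ℕ × ℕ) ⊕ (ℕ × ℕ))} (h : s ∈ PE CK E)
    (h' : s ∈ PE CK E') : s ∈ PE CK (E ∩ E') := by
  obtain ⟨t, h1, h2, rfl⟩ := h
  obtain ⟨t', h1', h2', h3'⟩ := h'
  have : t = t' := Finset.image_injective Sum.inl_injective h3'
  subst this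
  exact ⟨t, h1, Finset.subset_inter h2 h2', rfl⟩

theorem PE_level {E : Finset ℕ} {s : Finset ((ℕ × ℕ) ⊕ (ℕ × ℕ))} (h : s ∈ PE CK E)
    {x : (ℕ × ℕ) ⊕ (ℕ × ℕ)} (hx : x ∈ s) : ∃ u v, x = Sum.inl (u, v) ∧ v ∈ E := by
  obtain ⟨t, h1, h2, rfl⟩ := h
  obtain ⟨⟨u, v⟩, hv, rfl⟩ := Finset.mem_image.1 hx
  exact ⟨u, v, rfl, h2 (Finset.mem_image.mpr ⟨(u, v), hv, rfl⟩)⟩

end

theorem ctr_PE {K : Set (Finset ℕ)} {c : ℕ} (hK : IsCx K) (hc : ∀ s ∈ K, ∀ v ∈ s, v < c)
    {x y : ℕ} (hxy : x ≤ y) : Ctr (PE (Cn K c) {x, y}) := by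
  refine ctr_cone (isCx_PE (isCx_Cn hK) _) (Sum.inl (c, y)) ?_ ?_
  · refine ⟨{(c, y)}, ⟨by simpa using Cn_c, by simp⟩, by simp, by simp⟩
  · rintro s ⟨t, h1, h2, rfl⟩
    refine ⟨insert (c, y) t, ⟨?_, ?_⟩, ?_, by simp⟩
    · rw [Finset.image_insert]
      exact Cn_apex h1.1
    · have hle : ∀ p ∈ t, p ≤ (c, y) := by
        intro p hp
        refine Prod.mk_le_mk.mpr ⟨Cn_le hc h1.1 (Finset.mem_image.mpr ⟨p, hp, rfl⟩), ?_⟩
        have := h2 (Finset.mem_image.mpr ⟨p, hp, rfl⟩)
        simp only [Finset.mem_insert, Finset.mem_singleton] at this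
        omega
      intro p hp q hq
      rw [Finset.mem_insert] at hp hq
      rcases hp with rfl | hp <;> rcases hq with rfl | hq
      · exact Or.inl le_rfl
      · exact Or.inr (hle q hq)
      · exact Or.inl (hle p hp)
      · exact h1.2 p hp q hq
    · rw [Finset.image_insert, Finset.insert_subset_iff]
      exact ⟨by simp, h2⟩

end Pool.Agent.TH142.C3
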