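import Pool.Agent.TH142.C3.E

set_option autoImplicit false

namespace Pool.Agent.TH142.C3

open Pool.Agent.TH716.C3 Pool.Agent.Helper281.Sc

/-- vertices -/
abbrev VV := (ℕ × ℕ) ⊕ (ℕ × ℕ)

theorem wk0 (j : ℕ) (r : List (ℕ × Bool)) : wk j r 0 = (0, 0) := rfl
theorem wk1 (j : ℕ) (r : List (ℕ × Bool)) : wk j r 1 = (0, 2 * j + 1) := rfl
theorem wk2 (j : ℕ) (r : List (ℕ × Bool)) : wk j r 2 = (0, 2 * j + 2) := rfl
theorem wk3 (j : ℕ) (r : List (ℕ × Bool)) (k : ℕ) : wk j r (k + 3) = (wv r k, 0) := by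
  unfold wk
  rw [if_neg (by omega), if_neg (by omega), if_neg (by omega)]
  rfl

theorem mkPE {CK : Set (Finset ℕ)} {E : Finset ℕ} {u v x y : ℕ} (h : ({u, v} : Finset ℕ) ∈ CK)
    (hle : ((u, x) : ℕ × ℕ) ≤ (v, y) ∨ ((v, y) : ℕ × ℕ) ≤ (u, x)) (hx : x ∈ E) (hy : y ∈ E) :
    ({Sum.inl (u, x), Sum.inl (v, y)} : Finset VV) ∈ PE CK E := by
  refine ⟨{(u, x), (v, y)}, ⟨?_, ?_⟩, ?_, ?_⟩
  · rw [Finset.image_insert, Finset.image_singleton]
    exact h
  · intro p hp q hq
    simp only [Finset.mem_insert, Finset.mem_singleton] at hp hq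
    rcases hp with rfl | rfl <;> rcases hq with rfl | rfl
    · exact Or.inl le_rfl
    · exact hle
    · exact hle.symm
    · exact Or.inl le_rfl
  · intro z hz
    simp only [Finset.mem_image, Finset.mem_insert, Finset.mem_singleton] at hz
    obtain ⟨p, rfl | rfl, rfl⟩ := hz
    · exact hx
    · exact hy
  · rw [Finset.image_insert, Finset.image_singleton]

section
variable {CK : Set (Finset ℕ)} {N : ℕ} {r : List (ℕ × Bool)}

theorem zero_CK (hT : Th N ⊆ CK) : ({0, 0} : Finset ℕ) ∈ CK := hT (zero_Th N)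

theorem walk_edge (hT : Th N ⊆ CK) (hr : r ≠ []) (hr2 : ∀ x ∈ r, x.1 < N) (j i : ℕ)
    (hi : 2 ≤ i) (hi' : i ≤ 2 + 3 * r.length) :
    ({Sum.inl (wk j r i), Sum.inl (wk j r (nx (2 + 3 * r.length) i))} : Finset VV) ∈
      PE CK {0, 2 * j + 2} := by
  have hlen : 1 ≤ r.length := List.length_pos_iff.mpr hr
  have htot : ∀ u v : ℕ, ((u, 0) : ℕ × ℕ) ≤ (v, 0) ∨ ((v, 0) : ℕ × ℕ) ≤ (u, 0) := by
    intro u v
    rcases le_total u v with h | h
    · exact Or.inl (Prod.mk_le_mk.2 ⟨h, le_rfl⟩)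
    · exact Or.inr (Prod.mk_le_mk.2 ⟨h, le_rfl⟩)
  rcases Nat.lt_or_ge i 3 with h | h
  · have : i = 2 := by omega
    subst this
    have e : nx (2 + 3 * r.length) 2 = 0 + 3 := by
      unfold nx
      rw [if_pos (by omega)]
    rw [e, wk3, wk2, wv_zero]
    exact mkPE (zero_CK hT) (Or.inr (Prod.mk_le_mk.2 ⟨le_rfl, Nat.zero_le _⟩)) (by simp) (by simp)
  · obtain ⟨k, rfl⟩ := Nat.exists_eq_add_of_le' h
    rcases Nat.lt_or_ge (k + 3) (2 + 3 * r.length) with h1 | h1
    · have e : nx (2 + 3 * r.length) (k + 3) = (k + 1) + 3 := by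
        unfold nx
        rw [if_pos h1]
      rw [e, wk3, wk3]
      exact mkPE (hT (wv_edge r hr2 k)) (htot _ _) (by simp) (by simp)
    · have e : nx (2 + 3 * r.length) (k + 3) = 0 := by
        unfold nx
        rw [if_neg (by omega)]
      have e2 : k + 1 = 3 * r.length := by omega
      rw [e, wk3, wk0]
      have h2 := wv_edge r hr2 k
      rw [e2, wv_end] at h2
      exact mkPE (hT h2) (htot _ _) (by simp) (by simp)

/-- the gadget of the `j`-th circle -/
def Gj (j : ℕ) (r : List (ℕ × Bool)) : Set (Finset VV) :=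
  Gad (2 + 3 * r.length) (fun i => Sum.inl (wk j r i)) (fun i => Sum.inr (j, i))
      (Sum.inr (j, 3 + 3 * r.length))

theorem isCx_Gj (j : ℕ) (r : List (ℕ × Bool)) : IsCx (Gj j r) := isCx_Gad _ _ _ _

theorem Gj_inl (hCK : IsCx CK) (hT : Th N ⊆ CK) (hr : r ≠ []) (hr2 : ∀ x ∈ r, x.1 < N) (j : ℕ)
    {s : Finset VV} (hs : s ∈ Gj j r) (hinl : ∀ x, Sum.inr x ∉ s) :
    s ∈ PE CK {0, 2 * j + 2} ∨ s ⊆ {Sum.inl (0, 0), Sum.inl (0, 2 * j + 1)} ∨
      s ⊆ {Sum.inl (0, 2 * j + 1), Sum.inl (0, 2 * j + 2)} := by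
  obtain ⟨hn, i, hi, h⟩ := hs
  have hlen : 1 ≤ r.length := List.length_pos_iff.mpr hr
  have key : s ⊆ {Sum.inl (wk j r i), Sum.inl (wk j r (nx (2 + 3 * r.length) i))} := by
    intro x hx
    rcases h with h | h | h
    all_goals
      have h1 := h hx
      simp only [Finset.mem_insert, Finset.mem_singleton] at h1 ⊢
    · rcases h1 with h1 | h1 | rfl
      · exact Or.inl h1
      · exact Or.inr h1
      · exact absurd hx (hinl _)
    · rcases h1 with h1 | rfl | rfl
      · exact Or.inr h1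
      · exact absurd hx (hinl _)
      · exact absurd hx (hinl _)
    · rcases h1 with rfl | rfl | rfl
      all_goals exact absurd hx (hinl _)
  rcases Nat.lt_or_ge i 2 with h2 | h2
  · right
    interval_cases i
    · left
      have e : nx (2 + 3 * r.length) 0 = 1 := by
        unfold nx
        rw [if_pos (by omega)]
      rw [e, wk0, wk1] at key
      exact key
    · right
      have e : nx (2 + 3 * r.length) 1 = 2 := by
        unfold nx
        rw [if_pos (by omega)]
      rw [e, wk1, wk2] at key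
      exact key
  · left
    exact (isCx_PE hCK _).2 _ (walk_edge hT hr hr2 j i h2 hi) s key hn

theorem Gj_e0 (hr : r ≠ []) (j : ℕ) :
    ({Sum.inl (0, 0), Sum.inl (0, 2 * j + 1)} : Finset VV) ∈ Gj j r := by
  have hlen : 1 ≤ r.length := List.length_pos_iff.mpr hr
  refine ⟨by simp, 0, Nat.zero_le _, Or.inl ?_⟩
  have e : nx (2 + 3 * r.length) 0 = 1 := by
    unfold nx
    rw [if_pos (by omega)]
  rw [e]
  intro x hx
  simp only [Finset.mem_insert, Finset.mem_singleton, wk0, wk1] at hx ⊢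
  tauto

theorem Gj_e1 (hr : r ≠ []) (j : ℕ) :
    ({Sum.inl (0, 2 * j + 1), Sum.inl (0, 2 * j + 2)} : Finset VV) ∈ Gj j r := by
  have hlen : 1 ≤ r.length := List.length_pos_iff.mpr hr
  refine ⟨by simp, 1, by omega, Or.inl ?_⟩
  have e : nx (2 + 3 * r.length) 1 = 2 := by
    unfold nx
    rw [if_pos (by omega)]
  rw [e]
  intro x hx
  simp only [Finset.mem_insert, Finset.mem_singleton, wk1, wk2] at hx ⊢
  tauto

theorem Gj_inr (j : ℕ) {s : Finset VV} (hs : s ∈ Gj j r) {i k : ℕ}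
    (h : Sum.inr (i, k) ∈ s) : i = j := by
  obtain ⟨hn, m, hm, h1 | h1 | h1⟩ := hs
  all_goals
    have h2 := h1 h
    simp only [Finset.mem_insert, Finset.mem_singleton, reduceCtorEq, Sum.inr.injEq,
      Prod.mk.injEq, false_or] at h2
    omega

/-- the whole `j`-th piece -/
def Zj (CK : Set (Finset ℕ)) (j : ℕ) (r : List (ℕ × Bool)) : Set (Finset VV) :=
  ((PE CK {0, 2 * j + 2} ∪ Gj j r) ∪ PE CK {0, 2 * j + 1}) ∪ PE CK {2 * j + 1, 2 * j + 2}

theorem isCx_Zj (hCK : IsCx CK) (j : ℕ) (r : List (ℕ × Bool)) : IsCx (Zj CK j r) :=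
  isCx_union (isCx_union (isCx_union (isCx_PE hCK _) (isCx_Gj j r)) (isCx_PE hCK _))
    (isCx_PE hCK _)

/-- a simplex of `Zj` without `inr` vertices lies over levels `0, 2j+1, 2j+2` -/
theorem Zj_cases (hCK : IsCx CK) (hT : Th N ⊆ CK) (hr : r ≠ []) (hr2 : ∀ x ∈ r, x.1 < N) (j : ℕ)
    {s : Finset VV} (hs : s ∈ Zj CK j r) :
    (∃ k, Sum.inr (j, k) ∈ s) ∨ s ∈ PE CK {0, 2 * j + 1, 2 * j + 2} := by
  have e0 : ({Sum.inl (0, 0), Sum.inl (0, 2 * j + 1)} : Finset VV) ∈
      PE CK {0, 2 * j + 1, 2 * j + 2} :=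
    mkPE (zero_CK hT) (Or.inl (Prod.mk_le_mk.2 ⟨le_rfl, Nat.zero_le _⟩)) (by simp) (by simp)
  have e1 : ({Sum.inl (0, 2 * j + 1), Sum.inl (0, 2 * j + 2)} : Finset VV) ∈
      PE CK {0, 2 * j + 1, 2 * j + 2} :=
    mkPE (zero_CK hT) (Or.inl (Prod.mk_le_mk.2 ⟨le_rfl, by omega⟩)) (by simp) (by simp)
  have hcx := isCx_PE hCK ({0, 2 * j + 1, 2 * j + 2} : Finset ℕ)
  rcases hs with ((h | h) | h) | h
  · right
    exact PE_mono (by intro x; simp; tauto) h
  · by_cases hinr : ∃ x, Sum.inr x ∈ s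
    · obtain ⟨⟨i, k⟩, hx⟩ := hinr
      have := Gj_inr j h hx
      subst this
      exact Or.inl ⟨k, hx⟩
    · push Not at hinr
      right
      rcases Gj_inl hCK hT hr hr2 j h hinr with h1 | h1 | h1
      · exact PE_mono (by intro x; simp; tauto) h1
      · exact hcx.2 _ e0 s h1 h.1
      · exact hcx.2 _ e1 s h1 h.1
  · right
    exact PE_mono (by intro x; simp; tauto) h
  · right
    exact PE_mono (by intro x; simp; tauto) h

theorem Zj_inr (j : ℕ) {s : Finset VV} (hs : s ∈ Zj CK j r) {i k : ℕ}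
    (h : Sum.inr (i, k) ∈ s) : i = j := by
  rcases hs with ((h1 | h1) | h1) | h1
  · obtain ⟨u, v, h2, _⟩ := PE_level h1 h
    simp at h2
  · exact Gj_inr j h1 h
  · obtain ⟨u, v, h2, _⟩ := PE_level h1 h
    simp at h2
  · obtain ⟨u, v, h2, _⟩ := PE_level h1 h
    simp at h2

end

theorem pair_self (x : ℕ) : ({x, x} : Finset ℕ) = {x} := by simp

theorem ctr_Zj {K : Set (Finset ℕ)} {c : ℕ} (hK : IsCx K) (hc : ∀ s ∈ K, ∀ v ∈ s, v < c) {N : ℕ}
    (hT : Th N ⊆ K) {r : List (ℕ × Bool)} (hr : r ≠ []) (hr2 : ∀ x ∈ r, x.1 < N) (j : ℕ) :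
    Ctr (Zj (Cn K c) j r) := by
  have hlen : 1 ≤ r.length := List.length_pos_iff.mpr hr
  have hCK : IsCx (Cn K c) := isCx_Cn hK
  have hT' : Th N ⊆ Cn K c := hT.trans (K_sub_Cn hc hK)
  set CK := Cn K c with hCKdef
  have hcA : Ctr (PE CK {0, 2 * j + 2}) := ctr_PE hK hc (Nat.zero_le _)
  have hcP1 : Ctr (PE CK {0, 2 * j + 1}) := ctr_PE hK hc (Nat.zero_le _)
  have hcP2 : Ctr (PE CK {2 * j + 1, 2 * j + 2}) := ctr_PE hK hc (by omega)
  have hc0 : Ctr (PE CK {0}) := by
    have := ctr_PE hK hc (le_refl 0)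
    rwa [pair_self] at this
  have hca : Ctr (PE CK {2 * j + 1}) := by
    have := ctr_PE hK hc (le_refl (2 * j + 1))
    rwa [pair_self] at this
  have hcb : Ctr (PE CK {2 * j + 2}) := by
    have := ctr_PE hK hc (le_refl (2 * j + 2))
    rwa [pair_self] at this
  have hPE := fun E => isCx_PE hCK E
  have noinr : ∀ {E : Finset ℕ} {s : Finset VV}, s ∈ PE CK E → ∀ x, Sum.inr x ∉ s := by
    intro E s hs x hx
    obtain ⟨u, v, h, _⟩ := PE_level hs hx
    simp at h
  have lev : ∀ {E : Finset ℕ} {s : Finset VV}, s ∈ PE CK E → ∀ {u v : ℕ},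
      Sum.inl (u, v) ∈ s → v ∈ E := by
    intro E s hs u v hx
    obtain ⟨u', v', h, hv⟩ := PE_level hs hx
    simp only [Sum.inl.injEq, Prod.mk.injEq] at h
    rw [h.2]
    exact hv
  -- U
  have cU : Ctr (PE CK {0, 2 * j + 2} ∪ Gj j r) := by
    refine ctr_att (PE CK {0, 2 * j + 2}) (hPE _) hcA (2 + 3 * r.length) (by omega)
      (fun i => Sum.inl (wk j r i)) (fun i => Sum.inr (j, i)) (Sum.inr (j, 3 + 3 * r.length))
      ?_ ?_ ?_ ?_ ?_ ?_ ?_ ?_ ?_
    · intro s hs i
      exact noinr hs _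
    · intro s hs
      exact noinr hs _
    · intro s hs h
      have := lev hs h
      simp only [Finset.mem_insert, Finset.mem_singleton] at this
      omega
    · intro i _ i' _ h
      simpa using h
    · intro i i' h
      simp at h
    · intro i h
      simp at h
    · intro i hi h
      simp only [Sum.inr.injEq, Prod.mk.injEq, true_and] at h
      omega
    · simp only [wk0, wk2]
      intro h
      simp at h
    · intro i hi hi'
      exact walk_edge hT' hr hr2 j i hi hi'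
  have cxU := isCx_union (hPE {0, 2 * j + 2}) (isCx_Gj j r)
  -- first prism
  have m00 : ({Sum.inl (0, 0)} : Finset VV) ∈ PE CK {0} := by
    have := mkPE (E := {0}) (zero_CK hT') (Or.inl (le_refl ((0, 0) : ℕ × ℕ))) (by simp) (by simp)
    simpa using this
  have cI1 : Ctr ((PE CK {0, 2 * j + 2} ∪ Gj j r) ∩ PE CK {0, 2 * j + 1}) := by
    have e : (PE CK {0, 2 * j + 2} ∪ Gj j r) ∩ PE CK {0, 2 * j + 1} =
        PE CK {0} ∪ Cl {Sum.inl (0, 2 * j + 1), Sum.inl (0, 0)} := by
      ext s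
      constructor
      · rintro ⟨h1, h2⟩
        have hA : s ∈ PE CK {0, 2 * j + 2} → s ∈ PE CK {0} := by
          intro h3
          refine PE_mono ?_ (PE_inter h3 h2)
          intro x hx
          simp only [Finset.mem_inter, Finset.mem_insert, Finset.mem_singleton] at hx ⊢
          omega
        have hne : s.Nonempty := by
          rw [Finset.nonempty_iff_ne_empty]
          rintro rfl
          exact (hPE _).1 h2
        rcases h1 with h1 | h1
        · exact Or.inl (hA h1)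
        · rcases Gj_inl hCK hT' hr hr2 j h1 (noinr h2) with h3 | h3 | h3
          · exact Or.inl (hA h3)
          · refine Or.inr ⟨h3.trans ?_, hne⟩
            rw [Finset.pair_comm]
          · refine Or.inr ⟨?_, hne⟩
            intro x hx
            have h4 := h3 hx
            simp only [Finset.mem_insert, Finset.mem_singleton] at h4 ⊢
            rcases h4 with rfl | rfl
            · exact Or.inl rfl
            · have := lev h2 hx
              simp only [Finset.mem_insert, Finset.mem_singleton] at this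
              omega
      · rintro (h | ⟨h, hn⟩)
        · exact ⟨Or.inl (PE_mono (by simp) h), PE_mono (by simp) h⟩
        · rw [Finset.pair_comm] at h
          refine ⟨Or.inr ((isCx_Gj j r).2 _ (Gj_e0 hr j) s h hn), (hPE _).2 _ ?_ s h hn⟩
          exact mkPE (zero_CK hT') (Or.inl (Prod.mk_le_mk.2 ⟨le_rfl, Nat.zero_le _⟩)) (by simp)
            (by simp)
    rw [e]
    refine addE (hPE _) hc0 ?_ m00
    intro s hs h
    have := lev hs h
    simp at this
  have c1 := ctr_two cxU (hPE _) cU hcP1 cI1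
  have cx1 := isCx_union cxU (hPE {0, 2 * j + 1})
  -- second prism
  have m0a : ({Sum.inl (0, 2 * j + 1)} : Finset VV) ∈ PE CK {2 * j + 1} := by
    have := mkPE (E := {2 * j + 1}) (zero_CK hT') (Or.inl (le_refl ((0, 2 * j + 1) : ℕ × ℕ)))
      (by simp) (by simp)
    simpa using this
  have m0b : ({Sum.inl (0, 2 * j + 2)} : Finset VV) ∈ PE CK {2 * j + 2} := by
    have := mkPE (E := {2 * j + 2}) (zero_CK hT') (Or.inl (le_refl ((0, 2 * j + 2) : ℕ × ℕ)))
      (by simp) (by simp)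
    simpa using this
  have cI2 : Ctr (((PE CK {0, 2 * j + 2} ∪ Gj j r) ∪ PE CK {0, 2 * j + 1}) ∩
      PE CK {2 * j + 1, 2 * j + 2}) := by
    have e : ((PE CK {0, 2 * j + 2} ∪ Gj j r) ∪ PE CK {0, 2 * j + 1}) ∩
        PE CK {2 * j + 1, 2 * j + 2} =
        (PE CK {2 * j + 1} ∪ Cl {Sum.inl (0, 2 * j + 2), Sum.inl (0, 2 * j + 1)}) ∪
          PE CK {2 * j + 2} := by
      ext s
      constructor
      · rintro ⟨h1, h2⟩
        have hA : s ∈ PE CK {0, 2 * j + 2} → s ∈ PE CK {2 * j + 2} := by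
          intro h3
          refine PE_mono ?_ (PE_inter h3 h2)
          intro x hx
          simp only [Finset.mem_inter, Finset.mem_insert, Finset.mem_singleton] at hx ⊢
          omega
        have hB : s ∈ PE CK {0, 2 * j + 1} → s ∈ PE CK {2 * j + 1} := by
          intro h3
          refine PE_mono ?_ (PE_inter h3 h2)
          intro x hx
          simp only [Finset.mem_inter, Finset.mem_insert, Finset.mem_singleton] at hx ⊢
          omega
        have hne : s.Nonempty := by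
          rw [Finset.nonempty_iff_ne_empty]
          rintro rfl
          exact (hPE _).1 h2
        rcases h1 with (h1 | h1) | h1
        · exact Or.inr (hA h1)
        · rcases Gj_inl hCK hT' hr hr2 j h1 (noinr h2) with h3 | h3 | h3
          · exact Or.inr (hA h3)
          · refine Or.inl (Or.inr ⟨?_, hne⟩)
            intro x hx
            have h4 := h3 hx
            simp only [Finset.mem_insert, Finset.mem_singleton] at h4 ⊢
            rcases h4 with rfl | rfl
            · have := lev h2 hx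
              simp only [Finset.mem_insert, Finset.mem_singleton] at this
              omega
            · exact Or.inr rfl
          · refine Or.inl (Or.inr ⟨h3.trans ?_, hne⟩)
            rw [Finset.pair_comm]
        · exact Or.inl (Or.inl (hB h1))
      · rintro ((h | ⟨h, hn⟩) | h)
        · exact ⟨Or.inr (PE_mono (by simp) h), PE_mono (by simp) h⟩
        · rw [Finset.pair_comm] at h
          refine ⟨Or.inl (Or.inr ((isCx_Gj j r).2 _ (Gj_e1 hr j) s h hn)), (hPE _).2 _ ?_ s h hn⟩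
          exact mkPE (zero_CK hT') (Or.inl (Prod.mk_le_mk.2 ⟨le_rfl, by omega⟩)) (by simp)
            (by simp)
        · exact ⟨Or.inl (Or.inl (PE_mono (by simp) h)), PE_mono (by simp) h⟩
    rw [e]
    have cE : Ctr (PE CK {2 * j + 1} ∪ Cl {Sum.inl (0, 2 * j + 2), Sum.inl (0, 2 * j + 1)}) := by
      refine addE (hPE _) hca ?_ m0a
      intro s hs h
      have := lev hs h
      simp only [Finset.mem_singleton] at this
      omega
    refine ctr_two (isCx_union (hPE _) (isCx_Cl _)) (hPE _) cE hcb ?_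
    have e2 : (PE CK {2 * j + 1} ∪ Cl {Sum.inl (0, 2 * j + 2), Sum.inl (0, 2 * j + 1)}) ∩
        PE CK {2 * j + 2} = Cl {Sum.inl (0, 2 * j + 2)} := by
      ext s
      constructor
      · rintro ⟨h1, h2⟩
        have hne : s.Nonempty := by
          rw [Finset.nonempty_iff_ne_empty]
          rintro rfl
          exact (hPE _).1 h2
        refine ⟨?_, hne⟩
        rcases h1 with h1 | ⟨h1, _⟩
        · exfalso
          obtain ⟨x, hx⟩ := hne
          obtain ⟨u, v, rfl, hv⟩ := PE_level h1 hx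
          have := lev h2 hx
          simp only [Finset.mem_singleton] at this hv
          omega
        · intro x hx
          have h4 := h1 hx
          simp only [Finset.mem_insert, Finset.mem_singleton] at h4 ⊢
          rcases h4 with h4 | rfl
          · exact h4
          · have := lev h2 hx
            simp only [Finset.mem_singleton] at this
            omega
      · rintro ⟨h1, hn⟩
        exact ⟨Or.inr ⟨h1.trans (by simp), hn⟩, (hPE _).2 _ m0b s h1 hn⟩
    rw [e2]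
    exact ctr_Cl ⟨Sum.inl (0, 2 * j + 2), by simp⟩
  exact ctr_two cx1 (hPE _) c1 hcP2 cI2

theorem sZ : S_Z := by
  intro K hK c hc N hT rs hrs
  have hCK : IsCx (Cn K c) := isCx_Cn hK
  have hT' : Th N ⊆ Cn K c := hT.trans (K_sub_Cn hc hK)
  set CK := Cn K c with hCKdef
  have hPE := fun E => isCx_PE hCK E
  have hc0 : Ctr (PE CK {0}) := by
    have := ctr_PE hK hc (le_refl 0)
    rwa [pair_self] at this
  have hget : ∀ j : ℕ, j < rs.length → rs.getD j [] ∈ rs := by
    intro j hj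
    rw [List.getD_eq_getElem _ _ hj]
    exact List.getElem_mem hj
  have hU : ∀ s, s ∈ Lc CK rs ↔ s ∈ PE CK {0} ∨ ∃ i : {j // j < rs.length},
      s ∈ Zj CK i.1 (rs.getD i.1 []) := by
    intro s
    constructor
    · rintro (⟨t, ⟨h1, h2, h3⟩, rfl⟩ | ⟨j, hj, h⟩)
      · obtain ⟨_, h4 | ⟨j, hj, h4 | h4 | h4⟩⟩ := h2
        · exact Or.inl ⟨t, ⟨h1, h3⟩, by rw [h4], rfl⟩
        · exact Or.inr ⟨⟨j, hj⟩, Or.inl (Or.inr ⟨t, ⟨h1, h3⟩, h4, rfl⟩)⟩
        · exact Or.inr ⟨⟨j, hj⟩, Or.inr ⟨t, ⟨h1, h3⟩, h4, rfl⟩⟩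
        · exact Or.inr ⟨⟨j, hj⟩, Or.inl (Or.inl (Or.inl ⟨t, ⟨h1, h3⟩, h4, rfl⟩))⟩
      · exact Or.inr ⟨⟨j, hj⟩, Or.inl (Or.inl (Or.inr h))⟩
    · have hPr : ∀ (E : Finset ℕ), (∀ E' ⊆ E, E'.Nonempty → E' ∈ Th rs.length) →
          s ∈ PE CK E → s ∈ Lc CK rs := by
        rintro E hE ⟨t, h1, h2, rfl⟩
        exact Or.inl ⟨t, ⟨h1.1, hE _ h2 ((GG_ne hCK h1).image _), h1.2⟩, rfl⟩
      rintro (h | ⟨⟨j, hj⟩, ((h | h) | h) | h⟩)
      · refine hPr {0} ?_ h
        intro E' hE' hn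
        exact ⟨hn, Or.inl ((Finset.Nonempty.subset_singleton_iff hn).mp hE')⟩
      · exact hPr _ (fun E' hE' hn => ⟨hn, Or.inr ⟨j, hj, Or.inr (Or.inr hE')⟩⟩) h
      · exact Or.inr ⟨j, hj, h⟩
      · exact hPr _ (fun E' hE' hn => ⟨hn, Or.inr ⟨j, hj, Or.inl hE'⟩⟩) h
      · exact hPr _ (fun E' hE' hn => ⟨hn, Or.inr ⟨j, hj, Or.inr (Or.inl hE')⟩⟩) h
  have hX : IsCx (Lc CK rs) := by
    constructor
    · intro h
      rcases (hU _).mp h with h | ⟨i, h⟩
      · exact (hPE _).1 h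
      · exact (isCx_Zj hCK _ _).1 h
    · intro s hs t hts hn
      rw [hU] at hs ⊢
      rcases hs with h | ⟨i, h⟩
      · exact Or.inl ((hPE _).2 s h t hts hn)
      · exact Or.inr ⟨i, (isCx_Zj hCK _ _).2 s h t hts hn⟩
  refine ctr_union (ι := {j // j < rs.length}) (X1 := PE CK {0})
    (Y := fun i => Zj CK i.1 (rs.getD i.1 [])) hX (hPE _) (fun _ => isCx_Zj hCK _ _) hU ?_ ?_ ?_ hc0
  · rintro ⟨i, hi⟩ ⟨j, hj⟩ hij s ⟨h1, h2⟩
    have hij' : i ≠ j := fun h => hij (Subtype.ext h)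
    have ri := hrs _ (hget i hi)
    have rj := hrs _ (hget j hj)
    rcases Zj_cases hCK hT' ri.1 ri.2 i h1 with ⟨k, hk⟩ | h3
    · exact absurd (Zj_inr j h2 hk) hij'
    · rcases Zj_cases hCK hT' rj.1 rj.2 j h2 with ⟨k, hk⟩ | h4
      · exact absurd (Zj_inr i h1 hk).symm hij'
      · refine PE_mono ?_ (PE_inter h3 h4)
        intro x hx
        simp only [Finset.mem_inter, Finset.mem_insert, Finset.mem_singleton] at hx ⊢
        omega
  · rintro ⟨j, hj⟩
    have rj := hrs _ (hget j hj)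
    exact ctr_Zj hK hc hT rj.1 rj.2 j
  · rintro ⟨j, hj⟩
    have e : PE CK {0} ∩ Zj CK j (rs.getD j []) = PE CK {0} := by
      apply Set.inter_eq_left.mpr
      intro s hs
      exact Or.inl (Or.inl (Or.inl (PE_mono (by simp) hs)))
    show Ctr (PE CK {0} ∩ Zj CK j (rs.getD j []))
    rw [e]
    exact hc0

end Pool.Agent.TH142.C3
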